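import Mathlib
import Pool.Agent.H533R3.SL.Asm
import Pool.Agent.Q51.UF.Mult

set_option autoImplicit false
set_option linter.unusedSectionVars false

/-!
# Curves `t ↦ ∑ t ^ l_j W_j` through a point: bounded exponents, germs
-/

namespace Pool.Agent.Q204.UF

open Finset NumberField Height Module Filter MvPolynomial
open Pool.Agent.Helper259.AbsHt Pool.Agent.H533R3.SL Pool.Agent.Y215.SP Pool.Agent.Y215.SK
open Pool.Agent.Q51.UF

variable {n N r : ℕ}

/-- `t ↦ ∑ t ^ l_j W_j` is a nonconstant curve on `P = 0` -/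
def CurveOn {k L : Type} [Field k] [Field L] [Algebra k L]
    (P : Fin N → MvPolynomial (Fin (n + 1)) k) (W : Fin r → Fin (n + 1) → L) (l : Fin r → ℕ) :
    Prop :=
  (∀ i, MvPolynomial.aeval (cur W l) (P i) = 0) ∧
    ∃ i i', cur W l i * Polynomial.C (∑ j, W j i') ≠ cur W l i' * Polynomial.C (∑ j, W j i)

/-- the bound for the exponents -/
noncomputable def expB (d r : ℕ) : ℕ :=
  ∑ π : Set ((Fin r → Fin (d + 1)) × (Fin r → Fin (d + 1))), ∑ j, rep d π j

theorem rep_le (d : ℕ) (π : Set ((Fin r → Fin (d + 1)) × (Fin r → Fin (d + 1)))) (j : Fin r) :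
    rep d π j ≤ expB d r := by
  classical
  unfold expB
  refine le_trans ?_ (Finset.single_le_sum (f := fun π => ∑ j, rep d π j)
    (fun _ _ => Nat.zero_le _) (Finset.mem_univ π))
  exact Finset.single_le_sum (f := fun j => rep d π j) (fun _ _ => Nat.zero_le _)
    (Finset.mem_univ j)

/-- the exponents can be chosen bounded -/
theorem CurveOn.bounded {k L : Type} [Field k] [Field L] [Algebra k L] (d : ℕ) (hd : 1 ≤ d)
    {P : Fin N → MvPolynomial (Fin (n + 1)) k}
    (hP : ∀ i, ∃ e, e ≤ d ∧ (P i).IsHomogeneous e) {W : Fin r → Fin (n + 1) → L} {l : Fin r → ℕ}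
    (h : CurveOn P W l) : ∃ l', (∀ j, l' j ≤ expB d r) ∧ CurveOn P W l' := by
  refine ⟨rep d (pat d l), fun j => rep_le d _ j, fun i => ?_, ?_⟩
  · obtain ⟨e, he, hPe⟩ := hP i
    exact cur_zero_transfer d l _ (pat_rep d l).symm W (P i) e he hPe (h.1 i)
  · obtain ⟨i, i', hne⟩ := h.2
    exact ⟨i, i', fun h0 => hne (cur_const_transfer d hd _ l (pat_rep d l) W i i' _ _ h0)⟩

theorem cur_scale {L : Type} [Field L] (c : L) (W : Fin r → Fin (n + 1) → L) (l : Fin r → ℕ) :
    cur (fun j i => c * W j i) l = fun i => Polynomial.C c * cur W l i := by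
  funext i
  unfold cur
  rw [Finset.mul_sum]
  refine Finset.sum_congr rfl fun j _ => ?_
  rw [Polynomial.C_mul, mul_assoc]

theorem CurveOn.unscale {k L : Type} [Field k] [Field L] [Algebra k L]
    {P : Fin N → MvPolynomial (Fin (n + 1)) k} (hP : ∀ i, ∃ e, (P i).IsHomogeneous e)
    {W : Fin r → Fin (n + 1) → L} {c : L} (hc : c ≠ 0) {l : Fin r → ℕ}
    (h : CurveOn P (fun j i => c * W j i) l) : CurveOn P W l := by
  obtain ⟨h1, i, i', h2⟩ := h
  rw [cur_scale] at h1 h2
  refine ⟨fun i => ?_, i, i', fun h3 => h2 ?_⟩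
  · obtain ⟨e, he⟩ := hP i
    have h3 := h1 i
    rw [aeval_hom_smul _ he] at h3
    exact (mul_eq_zero.1 h3).resolve_left (pow_ne_zero _ (Polynomial.C_ne_zero.2 hc))
  · have h4 : ∀ i, ∑ j, c * W j i = c * ∑ j, W j i := fun i => by rw [Finset.mul_sum]
    rw [h4, h4, Polynomial.C_mul, Polynomial.C_mul]
    linear_combination (Polynomial.C c) ^ 2 * h3

/-! ### Germs -/

theorem map_zero_iff (p : Polynomial (ℕ → Qbar)) :
    Polynomial.map (Germ.coeRingHom (UU : Filter ℕ)) p = 0 ↔
      ∀ᶠ t in (UU : Filter ℕ), Polynomial.map (Pi.evalRingHom (fun _ : ℕ => Qbar) t) p = 0 := by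
  have h1 : Polynomial.map (Germ.coeRingHom (UU : Filter ℕ)) p = 0 ↔
      ∀ m ∈ p.support, gm (p.coeff m) = 0 := by
    constructor
    · intro h m _
      have := congrArg (fun q => Polynomial.coeff q m) h
      simp only [Polynomial.coeff_map, Polynomial.coeff_zero] at this
      exact this
    · intro h
      ext m
      rw [Polynomial.coeff_map, Polynomial.coeff_zero]
      by_cases hm : m ∈ p.support
      · exact h m hm
      · rw [Polynomial.notMem_support_iff.1 hm, map_zero]
  rw [h1]
  constructor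
  · intro h
    have h2 : ∀ᶠ t in (UU : Filter ℕ), ∀ m ∈ p.support, p.coeff m t = 0 := by
      rw [Filter.eventually_all_finset]
      exact fun m hm => gm_eq_zero.1 (h m hm)
    filter_upwards [h2] with t ht
    ext m
    rw [Polynomial.coeff_map, Polynomial.coeff_zero]
    by_cases hm : m ∈ p.support
    · exact ht m hm
    · rw [Polynomial.notMem_support_iff.1 hm, map_zero]
  · intro h m _
    rw [gm_eq_zero]
    filter_upwards [h] with t ht
    have := congrArg (fun q => Polynomial.coeff q m) ht
    simp only [Polynomial.coeff_map, Polynomial.coeff_zero] at this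
    exact this

theorem map_cur {R S : Type} [CommRing R] [CommRing S] (φ : R →+* S)
    (W : Fin r → Fin (n + 1) → R) (l : Fin r → ℕ) (i : Fin (n + 1)) :
    Polynomial.map φ (cur W l i) = cur (fun j a => φ (W j a)) l i := by
  unfold cur
  rw [Polynomial.map_sum]
  refine Finset.sum_congr rfl fun j _ => ?_
  simp

theorem map_diff {R S : Type} [CommRing R] [CommRing S] (φ : R →+* S)
    (W : Fin r → Fin (n + 1) → R) (l : Fin r → ℕ) (i i' : Fin (n + 1)) :
    Polynomial.map φ (cur W l i * Polynomial.C (∑ j, W j i') -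
      cur W l i' * Polynomial.C (∑ j, W j i)) =
    cur (fun j a => φ (W j a)) l i * Polynomial.C (∑ j, φ (W j i')) -
      cur (fun j a => φ (W j a)) l i' * Polynomial.C (∑ j, φ (W j i)) := by
  have e : ∀ i, φ (∑ j, W j i) = ∑ j, φ (W j i) := fun i => map_sum φ _ _
  rw [Polynomial.map_sub, Polynomial.map_mul, Polynomial.map_mul, map_cur, map_cur,
    Polynomial.map_C, Polynomial.map_C, e, e]

theorem map_aeval_poly {σ R S : Type} [CommRing R] [CommRing S] (φ : R →+* S)
    (y : σ → Polynomial R) (F : MvPolynomial σ R) :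
    Polynomial.map φ (aeval y F) = aeval (fun s => Polynomial.map φ (y s)) (map φ F) := by
  induction F using MvPolynomial.induction_on with
  | C a => simp [Polynomial.algebraMap_eq]
  | add p q hp hq => rw [map_add, map_add, map_add, Polynomial.map_add, hp, hq]
  | mul_X p i hp => rw [map_mul, map_mul, map_mul, Polynomial.map_mul, hp, aeval_X, map_X, aeval_X]

/-- a nonconstant curve over the germs is one at almost all indices -/
theorem curve_germ {A : Type} (P : Fin N → MvPolynomial (Fin (n + 1)) (MvPolynomial A ℤ))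
    (a : A → ℕ → Qbar) (w : Fin r → Fin (n + 1) → ℕ → Qbar) (l : Fin r → ℕ)
    (h : CurveOn (fun i => fam (fun α => gm (a α)) (P i)) (fun j i => gm (w j i)) l) :
    ∀ᶠ t in (UU : Filter ℕ), CurveOn (fun i => fam (fun α => a α t) (P i))
      (fun j i => w j i t) l := by
  obtain ⟨h1, i, i', h2⟩ := h
  have hz : ∀ i, ∀ᶠ t in (UU : Filter ℕ),
      aeval (cur (fun j i => w j i t) l) (fam (fun α => a α t) (P i)) = 0 := by
    intro i
    have h3 := (map_zero_iff (aeval (cur w l) (fam a (P i)))).1 (by
      rw [map_aeval_poly, fam_map]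
      have h4 : (fun s => Polynomial.map (Germ.coeRingHom (UU : Filter ℕ)) (cur w l s)) =
          cur (fun j i => gm (w j i)) l := by
        funext s
        rw [map_cur]
        rfl
      rw [h4]
      exact h1 i)
    filter_upwards [h3] with t ht
    rw [map_aeval_poly, fam_map] at ht
    have h4 : (fun s => Polynomial.map (Pi.evalRingHom (fun _ : ℕ => Qbar) t) (cur w l s)) =
        cur (fun j i => w j i t) l := by
      funext s
      rw [map_cur]
      rfl
    rw [h4] at ht
    exact ht
  have hne : ∀ᶠ t in (UU : Filter ℕ), cur (fun j i => w j i t) l i *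
      Polynomial.C (∑ j, w j i' t) ≠ cur (fun j i => w j i t) l i' *
      Polynomial.C (∑ j, w j i t) := by
    have h3 := (map_zero_iff (cur w l i * Polynomial.C (∑ j, w j i') -
      cur w l i' * Polynomial.C (∑ j, w j i))).not.1 (by
      rw [map_diff, sub_eq_zero]
      exact h2)
    rw [← Ultrafilter.eventually_not] at h3
    filter_upwards [h3] with t ht hh
    apply ht
    rw [map_diff, sub_eq_zero]
    exact hh
  have hz' : ∀ᶠ t in (UU : Filter ℕ), ∀ i,
      aeval (cur (fun j i => w j i t) l) (fam (fun α => a α t) (P i)) = 0 := by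
    rw [Filter.eventually_all]
    exact hz
  filter_upwards [hz', hne] with t h3 h4
  exact ⟨h3, i, i', h4⟩

end Pool.Agent.Q204.UF
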