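import Mathlib
import Pool.Agent.Q204.UF.Curve
import Pool.Agent.Y215.SP.Off

set_option autoImplicit false
set_option linter.unusedSectionVars false

/-! # The number of points with small multipliers through which there is no curve -/

namespace Pool.Agent.Q204.UF

open Finset MvPolynomial Pool.Agent.Helper259.AbsHt Pool.Agent.H533R3.SL Pool.Agent.Y215.SP

variable {n N r : ℕ}

/-- the points `∑ t_j v_j` with multipliers of height less than `ε`, different from zero,
on `P = 0`, such that no curve `∑ T ^ l_j t_j v_j` is contained in `P = 0` -/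
def OffP {k L : Type} [Field k] [Field L] [Algebra k L] (ι : Qbar →+* L)
    (P : Fin N → MvPolynomial (Fin (n + 1)) k) (ε : ℝ)
    (v : Fin r → Fin (n + 1) → L) : Set (Projectivization L (Fin (n + 1) → L)) :=
  {p | ∃ t : Fin r → Qbar, (∀ j, t j ≠ 0) ∧ absLogHeight t < ε ∧
    (∀ i, aeval (pt ι v t) (P i) = 0) ∧
    (∀ l : Fin r → ℕ, ¬ CurveOn P (fun j i => ι (t j) * v j i) l) ∧
    ∃ h : pt ι v t ≠ 0, p = Projectivization.mk L (pt ι v t) h}

/-- the same with zero multipliers allowed -/
def smallP {k L : Type} [Field k] [Field L] [Algebra k L] (ι : Qbar →+* L)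
    (P : Fin N → MvPolynomial (Fin (n + 1)) k) (ε : ℝ)
    (v : Fin r → Fin (n + 1) → L) : Set (Projectivization L (Fin (n + 1) → L)) :=
  {p | ∃ t : Fin r → Qbar, absLogHeight t < ε ∧
    (∀ i, aeval (pt ι v t) (P i) = 0) ∧
    (∀ l : Fin r → ℕ, ¬ CurveOn P (fun j i => ι (t j) * v j i) l) ∧
    ∃ h : pt ι v t ≠ 0, p = Projectivization.mk L (pt ι v t) h}

theorem card_offP {k : Type} [Field k] (P : Fin N → MvPolynomial (Fin (n + 1)) k) (d : ℕ)
    (hd : 1 ≤ d) (hP : ∀ i, ∃ e, e ≤ d ∧ (P i).IsHomogeneous e)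
    {L : Type} [Field L] [Algebra k L]
    (ι : Qbar →+* L) (v : Fin r → Fin (n + 1) → L) :
    (OffP ι P (epsn ((d + 1) ^ r) / d) v).encard ≤ (M0 N d r : ℕ∞) := by
  classical
  choose e0 he0 hPe using hP
  set m := (d + 1) ^ r with hm
  have hm1 : 1 ≤ m := Nat.one_le_pow _ _ (by omega)
  -- codes
  choose g hg using fun (i : Fin N) (f : Sp v (P i) → Sp v (P i)) (c : Sp v (P i)) =>
    exists_ratio_code ι v (P i) d hd (e0 i) (he0 i) (hPe i) f c
  obtain ⟨re, hre⟩ := exists_root_code (Euni d r) (Euni_pos d r)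
  -- exponents
  choose lf hlf hgen using fun (f : ∀ i, Sp v (P i) → Sp v (P i)) =>
    exists_gen (Wf P v f) (Wf_sum P (fun i => ⟨_, hPe i⟩) v f)
  -- multipliers of a point
  have hch : ∀ p : Projectivization L (Fin (n + 1) → L), ∃ t : Fin r → Qbar,
      p ∈ OffP ι P (epsn m / d) v → (∀ j, t j ≠ 0) ∧ absLogHeight t < epsn m / d ∧
        (∀ i, aeval (pt ι v t) (P i) = 0) ∧
        (∀ l : Fin r → ℕ, ¬ CurveOn P (fun j i => ι (t j) * v j i) l) ∧
        ∃ h : pt ι v t ≠ 0, p = Projectivization.mk L (pt ι v t) h := by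
    intro p
    by_cases hp : p ∈ OffP ι P (epsn m / d) v
    · obtain ⟨t, ht⟩ := hp
      exact ⟨t, fun _ => ht⟩
    · exact ⟨0, fun h => absurd h hp⟩
  choose tt htt using hch
  -- colorings
  have hcol : ∀ (p : Projectivization L (Fin (n + 1) → L)) (i : Fin N),
      ∃ f : Sp v (P i) → Sp v (P i), p ∈ OffP ι P (epsn m / d) v → Col ι v (P i) (tt p) f := by
    intro p i
    by_cases hp : p ∈ OffP ι P (epsn m / d) v
    · obtain ⟨f, hf⟩ := exists_col ι v (P i) (tt p) ((htt p hp).2.2.1 i)
      exact ⟨f, fun _ => hf⟩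
    · exact ⟨id, fun h => absurd h hp⟩
  choose ff hff using hcol
  -- the point is proportional to the partial sums
  have hprop : ∀ p ∈ OffP ι P (epsn m / d) v, ∀ (w : ℕ) (a b : Fin (n + 1)),
      (∑ j ∈ Finset.univ.filter (fun j => lf (ff p) j = w), ι (tt p j) * v j a) *
        pt ι v (tt p) b =
      (∑ j ∈ Finset.univ.filter (fun j => lf (ff p) j = w), ι (tt p j) * v j b) *
        pt ι v (tt p) a := by
    intro p hp w a b
    refine part_prop (fun j i => ι (tt p j) * v j i) (lf (ff p)) ?_ w a b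
    by_contra hne
    push Not at hne
    refine (htt p hp).2.2.2.1 (lf (ff p)) ⟨?_, hne⟩
    intro i
    refine cur_zero (fun j => ι (tt p j)) v (P i) (lf (ff p)) (ff p i)
      (fun c => ?_) ?_
    · exact (hff p i hp c).1
    · intro α β hαβ
      have h1 := hlf (ff p) _ ⟨i, α, β, hαβ, rfl⟩
      have h2 : ∑ j, ((lf (ff p) j : ℕ) : ℤ) * ((((α : Fin r →₀ ℕ) j : ℕ) : ℤ) -
          (((β : Fin r →₀ ℕ) j : ℕ) : ℤ)) = 0 := h1
      simp_rw [mul_sub] at h2
      rw [Finset.sum_sub_distrib, sub_eq_zero] at h2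
      have h3 : ((∑ j, (α : Fin r →₀ ℕ) j * lf (ff p) j : ℕ) : ℤ) =
          ((∑ j, (β : Fin r →₀ ℕ) j * lf (ff p) j : ℕ) : ℤ) := by
        push_cast
        simp_rw [mul_comm _ ((lf (ff p) _ : ℕ) : ℤ)]
        exact h2
      exact_mod_cast h3
  -- a class with nonzero partial sum
  have hj0 : ∀ p, ∃ j0 : Option (Fin r), p ∈ OffP ι P (epsn m / d) v → ∃ j1, j0 = some j1 ∧
      ∃ a, ∑ j ∈ Finset.univ.filter (fun j => lf (ff p) j = lf (ff p) j1),
        ι (tt p j) * v j a ≠ 0 := by
    intro p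
    by_cases hp : p ∈ OffP ι P (epsn m / d) v
    · obtain ⟨h0, -⟩ := (htt p hp).2.2.2.2
      obtain ⟨a, ha⟩ := Function.ne_iff.1 h0
      have h1 : ∑ w ∈ Finset.univ.image (lf (ff p)), ∑ j ∈ Finset.univ.filter
          (fun j => lf (ff p) j = w), ι (tt p j) * v j a ≠ 0 := by
        rw [Finset.sum_fiberwise_of_maps_to (fun j _ => Finset.mem_image_of_mem _ (Finset.mem_univ j))]
        exact ha
      obtain ⟨w, hw, hw0⟩ := Finset.exists_ne_zero_of_sum_ne_zero h1
      obtain ⟨j1, _, rfl⟩ := Finset.mem_image.1 hw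
      exact ⟨some j1, fun _ => ⟨j1, rfl, a, hw0⟩⟩
    · exact ⟨none, fun h => absurd h hp⟩
  choose j0 hj0 using hj0
  -- the data
  let D : Projectivization L (Fin (n + 1) → L) →
      ((∀ i : Fin N, (Sp v (P i) → Sp v (P i)) × (Sp v (P i) → Fin (Bm d r))) ×
        (Option (Fin r) × (Fin r → Fin (Euni d r)))) := fun p =>
    (fun i => (ff p i, fun c => g i (ff p i) c (tt p)),
      (j0 p, fun j => re (tt p j / (j0 p).elim 1 (tt p))))
  have hinj : ∀ p ∈ OffP ι P (epsn m / d) v, ∀ q ∈ OffP ι P (epsn m / d) v,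
      D p = D q → p = q := by
    intro p hp q hq hD
    have hf : ff p = ff q := by
      funext i
      have h1 := congrFun (congrArg Prod.fst hD) i
      exact congrArg Prod.fst h1
    have hcode : ∀ i c, g i (ff p i) c (tt p) = g i (ff q i) c (tt q) := by
      intro i c
      have h1 := congrFun (congrArg Prod.fst hD) i
      exact congrFun (congrArg Prod.snd h1) c
    have hjj : j0 p = j0 q := congrArg Prod.fst (congrArg Prod.snd hD)
    have hroot : ∀ j, re (tt p j / (j0 p).elim 1 (tt p)) =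
        re (tt q j / (j0 q).elim 1 (tt q)) := fun j =>
      congrFun (congrArg Prod.snd (congrArg Prod.snd hD)) j
    obtain ⟨hpt, hph, hpz, hpG, hp0, hpm⟩ := htt p hp
    obtain ⟨hqt, hqh, hqz, hqG, hq0, hqm⟩ := htt q hq
    obtain ⟨j1, hj1, a0, ha0⟩ := hj0 p hp
    -- characters agree on `Wf`
    have hchr : ∀ w ∈ Wf P v (ff p), chr (tt p) w = chr (tt q) w := by
      rintro _ ⟨i, α, β, hαβ, rfl⟩
      have hcq : Col ι v (P i) (tt q) (ff p i) := by
        rw [hf]
        exact hff q i hq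
      have h1 := hg i (ff p i) (ff p i β) (tt p) (tt q) hpt hqt hph hqh (hff p i hp) hcq
        (by rw [hcode i]; rw [hf]) α β hαβ rfl
      have h2 : ∀ s : Fin r → Qbar, (∀ j, s j ≠ 0) →
          chr s (fun j => (((α : Fin r →₀ ℕ) j : ℕ) : ℤ) - (((β : Fin r →₀ ℕ) j : ℕ) : ℤ)) =
          (∏ j, s j ^ ((α : Fin r →₀ ℕ) j)) / (∏ j, s j ^ ((β : Fin r →₀ ℕ) j)) := by
        intro s hs
        unfold chr
        rw [← Finset.prod_div_distrib]
        refine Finset.prod_congr rfl fun j _ => ?_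
        rw [zpow_sub₀ (hs j), zpow_natCast, zpow_natCast]
      rw [h2 _ hpt, h2 _ hqt]
      exact h1
    -- the ratios in the class agree
    have hrat : ∀ j, lf (ff p) j = lf (ff p) j1 → tt p j / tt p j1 = tt q j / tt q j1 := by
      intro j hj
      have h1 := hroot j
      rw [← hjj, hj1] at h1
      refine hre _ _ ?_ h1
      show (tt p j / tt p j1) ^ Euni d r = (tt q j / tt q j1) ^ Euni d r
      rw [← chr_single _ hpt, ← chr_single _ hqt]
      refine chr_closure _ _ hpt hqt (Wf P v (ff p)) hchr _ ?_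
      obtain ⟨Q, hQ⟩ := Wf_eq_WQ P d (fun i => ⟨e0 i, he0 i, hPe i⟩) v (ff p)
      rw [← hQ]
      refine Euni_spec d Q j j1 ?_
      rw [hQ]
      rcases dichot (Wf P v (ff p)) (Pi.single j 1 - Pi.single j1 1) with ⟨l', hl', hne⟩ | h
      · exfalso
        apply hne
        have h2 := hgen (ff p) j j1 hj l' hl'
        simp only [Pi.sub_apply, mul_sub, Finset.sum_sub_distrib, Pi.single_apply, mul_ite,
          mul_one, mul_zero, Finset.sum_ite_eq', Finset.mem_univ, if_true]
        rw [h2, sub_self]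
      · exact h
    -- partial sums are proportional
    set Sp' : Fin (n + 1) → L := fun a =>
      ∑ j ∈ Finset.univ.filter (fun j => lf (ff p) j = lf (ff p) j1), ι (tt p j) * v j a with hSp
    set Sq' : Fin (n + 1) → L := fun a =>
      ∑ j ∈ Finset.univ.filter (fun j => lf (ff p) j = lf (ff p) j1), ι (tt q j) * v j a with hSq
    have hSpq : ∀ a, Sp' a * ι (tt q j1) = Sq' a * ι (tt p j1) := by
      intro a
      rw [hSp, hSq]
      simp only
      rw [Finset.sum_mul, Finset.sum_mul]
      refine Finset.sum_congr rfl fun j hj => ?_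
      have h1 := hrat j (Finset.mem_filter.1 hj).2
      rw [div_eq_div_iff (hpt j1) (hqt j1)] at h1
      have h2 := congrArg ι h1
      rw [map_mul, map_mul] at h2
      calc ι (tt p j) * v j a * ι (tt q j1) = (ι (tt p j) * ι (tt q j1)) * v j a := by ring
        _ = ι (tt q j) * v j a * ι (tt p j1) := by rw [h2]; ring
    have hιp : ι (tt p j1) ≠ 0 := (map_ne_zero ι).2 (hpt j1)
    have hιq : ι (tt q j1) ≠ 0 := (map_ne_zero ι).2 (hqt j1)
    have hSp0 : Sp' a0 ≠ 0 := ha0
    have hSq0 : Sq' a0 ≠ 0 := by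
      intro h
      have h1 := hSpq a0
      rw [h, zero_mul] at h1
      exact (mul_ne_zero hSp0 hιq) h1
    have hpp : ∀ a b, Sp' a * pt ι v (tt p) b = Sp' b * pt ι v (tt p) a :=
      fun a b => hprop p hp _ a b
    have hqq : ∀ a b, Sq' a * pt ι v (tt q) b = Sq' b * pt ι v (tt q) a := by
      intro a b
      have h1 := hprop q hq (lf (ff p) j1) a b
      rw [← hf] at h1
      exact h1
    have hxa : pt ι v (tt p) a0 ≠ 0 := by
      intro h
      apply hp0
      funext b
      have h1 := hpp a0 b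
      rw [h, mul_zero] at h1
      exact (mul_eq_zero.1 h1).resolve_left hSp0
    have hya : pt ι v (tt q) a0 ≠ 0 := by
      intro h
      apply hq0
      funext b
      have h1 := hqq a0 b
      rw [h, mul_zero] at h1
      exact (mul_eq_zero.1 h1).resolve_left hSq0
    rw [hpm, hqm, Projectivization.mk_eq_mk_iff']
    refine ⟨pt ι v (tt p) a0 / pt ι v (tt q) a0, ?_⟩
    funext b
    rw [Pi.smul_apply, smul_eq_mul]
    have h1 := hpp a0 b
    have h2 := hqq a0 b
    have h3 : pt ι v (tt p) b = Sp' b * pt ι v (tt p) a0 / Sp' a0 := by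
      rw [← h1]; field_simp
    have h4 : pt ι v (tt q) b = Sq' b * pt ι v (tt q) a0 / Sq' a0 := by
      rw [← h2]; field_simp
    have h5 : Sq' b * Sp' a0 = Sp' b * Sq' a0 := by
      have h6 := hSpq b
      have h7 := hSpq a0
      have h8 : (Sq' b * Sp' a0) * (ι (tt p j1) * ι (tt q j1)) =
          (Sp' b * Sq' a0) * (ι (tt p j1) * ι (tt q j1)) := by
        calc (Sq' b * Sp' a0) * (ι (tt p j1) * ι (tt q j1)) =
            (Sq' b * ι (tt p j1)) * (Sp' a0 * ι (tt q j1)) := by ring
          _ = (Sp' b * ι (tt q j1)) * (Sq' a0 * ι (tt p j1)) := by rw [h6, h7]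
          _ = _ := by ring
      exact mul_right_cancel₀ (mul_ne_zero hιp hιq) h8
    rw [h3, h4]
    field_simp
    linear_combination h5
  refine (encard_le_of_data _ D hinj).trans ?_
  have hB1 : 1 ≤ Bm d r := by
    unfold Bm
    refine Nat.one_le_pow _ _ (Nat.mul_pos (by positivity) ?_)
    unfold bnd
    positivity
  have hc : Fintype.card ((∀ i : Fin N, (Sp v (P i) → Sp v (P i)) ×
      (Sp v (P i) → Fin (Bm d r))) × (Option (Fin r) × (Fin r → Fin (Euni d r)))) ≤
      M0 N d r := by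
    rw [Fintype.card_prod, Fintype.card_prod, Fintype.card_option, Fintype.card_fun,
      Fintype.card_fin, Fintype.card_fin]
    unfold M0
    refine Nat.mul_le_mul_right _ ?_
    rw [Fintype.card_pi]
    have h1 : ∀ i ∈ (Finset.univ : Finset (Fin N)),
        Fintype.card ((Sp v (P i) → Sp v (P i)) × (Sp v (P i) → Fin (Bm d r))) ≤
        (((d + 1) ^ r) ^ ((d + 1) ^ r)) * Bm d r ^ ((d + 1) ^ r) := by
      intro i _
      have h2 : Fintype.card (Sp v (P i)) ≤ m := by
        rw [Fintype.card_coe]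
        exact card_supp v (P i) (e0 i) d (he0 i) (hPe i)
      rw [Fintype.card_prod, Fintype.card_fun, Fintype.card_fun, Fintype.card_fin]
      refine Nat.mul_le_mul ?_ (Nat.pow_le_pow_right hB1 h2)
      exact (Nat.pow_le_pow_left h2 _).trans (Nat.pow_le_pow_right hm1 h2)
    refine (Finset.prod_le_prod' h1).trans ?_
    rw [Finset.prod_const, Finset.card_univ, Fintype.card_fin]
  exact_mod_cast hc


theorem card_smallP {k : Type} [Field k] (P : Fin N → MvPolynomial (Fin (n + 1)) k) (d : ℕ)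
    (hd : 1 ≤ d) (hP : ∀ i, ∃ e, e ≤ d ∧ (P i).IsHomogeneous e)
    {L : Type} [Field L] [Algebra k L]
    (ι : Qbar →+* L) (v : Fin r → Fin (n + 1) → L) :
    (smallP ι P (epsn ((d + 1) ^ r) / d) v).encard ≤
      (2 ^ r * M0 ((d + 1) ^ r) d r : ℕ) := by
  classical
  set ε := epsn ((d + 1) ^ r) / d with hε
  let mask : Finset (Fin r) → Fin r → Fin (n + 1) → L := fun A j i => if j ∈ A then v j i else 0
  have hcov : smallP ι P ε v ⊆ ⋃ A : Finset (Fin r), OffP ι P ε (mask A) := by
    rintro p ⟨t, hth, htz, htG, h0, hp⟩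
    have hA : ∃ j1, t j1 ≠ 0 := by
      by_contra h
      push Not at h
      apply h0
      funext i
      refine Finset.sum_eq_zero fun j _ => ?_
      rw [h j, map_zero, zero_mul]
    obtain ⟨j1, hj1⟩ := hA
    let A := Finset.univ.filter (fun j => t j ≠ 0)
    let σ : Fin r → Fin r := fun j => if t j ≠ 0 then j else j1
    have hterm : (fun j i => ι ((t ∘ σ) j) * mask A j i) = fun j i => ι (t j) * v j i := by
      funext j i
      by_cases hj : t j = 0
      · have h1 : mask A j i = 0 := if_neg (by simp [A, hj])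
        rw [h1, hj, map_zero, zero_mul, mul_zero]
      · have h1 : mask A j i = v j i := if_pos (by simp [A, hj])
        have h2 : σ j = j := if_pos hj
        rw [h1, Function.comp_apply, h2]
    have hpt : pt ι (mask A) (t ∘ σ) = pt ι v t := by
      funext i
      exact Finset.sum_congr rfl fun j _ => congrFun (congrFun hterm j) i
    rw [Set.mem_iUnion]
    refine ⟨A, t ∘ σ, fun j => ?_, ?_, ?_, ?_, ?_⟩
    · by_cases hj : t j = 0
      · have h2 : σ j = j1 := if_neg (by simpa using hj)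
        rw [Function.comp_apply, h2]
        exact hj1
      · have h2 : σ j = j := if_pos hj
        rw [Function.comp_apply, h2]
        exact hj
    · exact lt_of_le_of_lt (absLogHeight_comp_le σ t) hth
    · rw [hpt]; exact htz
    · rw [hterm]; exact htG
    · have h1 : pt ι (mask A) (t ∘ σ) ≠ 0 := by rw [hpt]; exact h0
      exact ⟨h1, hp.trans (mk_congr h0 h1 hpt.symm)⟩
  refine (encard_le_mul _ _ (M0 ((d + 1) ^ r) d r) hcov fun A => ?_).trans ?_
  · obtain ⟨P', hP'1, hP'2⟩ := exists_few (mask A) P d hP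
    have hsub : OffP ι P ε (mask A) ⊆ OffP ι P' ε (mask A) := by
      rintro p ⟨t, h1, h2, h3, h4, h5⟩
      refine ⟨t, h1, h2, fun a => ?_, fun l hl => h4 l ⟨fun i => ?_, hl.2⟩, h5⟩
      · rcases hP'1 a with h | ⟨i, h⟩
        · rw [h, map_zero]
        · rw [h]
          exact h3 i
      · exact cur_span (fun j => ι (t j)) (mask A) l P' hl.1 (P i) (hP'2 i)
    refine (Set.encard_le_encard hsub).trans ?_
    refine card_offP P' d hd (fun a => ?_) ι (mask A)
    rcases hP'1 a with h | ⟨i, h⟩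
    · exact ⟨0, Nat.zero_le _, by rw [h]; exact MvPolynomial.isHomogeneous_zero _ _ _⟩
    · rw [h]
      exact hP i
  · rw [Nat.card_eq_fintype_card, Fintype.card_finset, Fintype.card_fin]

end Pool.Agent.Q204.UF
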