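import Mathlib
import Pool.Agent.Q204.UF.Curve

set_option autoImplicit false
set_option linter.unusedSectionVars false

/-!
# Sums of elements of a group of finite rank on varieties: bounded multipliers unless there is a
curve through the point
-/

namespace Pool.Agent.Q204.UF

open Finset NumberField Height Module Filter MvPolynomial
open Pool.Agent.Helper259.AbsHt Pool.Agent.H533R3.SL Pool.Agent.Y215.SP Pool.Agent.Y215.SK
open Pool.Agent.Y215.AF (hA)
open Pool.Agent.Q51.UF

variable {n N r : ℕ} {A : Type}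

/-- the vectors `u_j V_j` -/
noncomputable def tw (u : Fin r → Qbarˣ) (V : Fin r → Fin (n + 1) → Qbar) : Fin r → Fin (n + 1) → Qbar :=
  fun j i => (u j : Qbar) * V j i

/-- **Bounded multipliers unless there is a curve.** -/
theorem mult_pt [Finite A]
    (P : Fin N → MvPolynomial (Fin (n + 1)) (MvPolynomial A ℤ))
    (hP : ∀ i, ∃ e, (P i).IsHomogeneous e)
    (Γ : Subgroup Qbarˣ) (hΓ : Γ.FG) :
    ∃ C : ℝ, ∀ (a : A → Qbar) (u : Fin r → Qbarˣ) (V : Fin r → Fin (n + 1) → Qbar),
      (∀ j, u j ∈ DivHull Γ) →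
      psum Finset.univ u V ≠ 0 → (∀ i, aeval (psum Finset.univ u V) (fam a (P i)) = 0) →
      (∀ l : Fin r → ℕ, ¬ CurveOn (fun i => fam a (P i)) (tw u V) l) →
      ∃ J : Finset (Fin r), Good J u V ∧
        absLogHeight (fun j : J => (u j : Qbar)) ≤ C * (1 + hA a + hV V) := by
  classical
  by_contra hcon
  push Not at hcon
  have hA0 : ∀ a : A → Qbar, 0 ≤ hA a := fun a => absLogHeight_nonneg _
  have hcon2 : ∀ t : ℕ, ∃ (a : A → Qbar) (u : Fin r → Qbarˣ) (V : Fin r → Fin (n + 1) → Qbar)
      (ℓ : ℝ),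
      (∀ j, u j ∈ DivHull Γ) ∧
      (psum Finset.univ u V ≠ 0 ∧ (∀ i, aeval (psum Finset.univ u V) (fam a (P i)) = 0) ∧
        ∀ l : Fin r → ℕ, ¬ CurveOn (fun i => fam a (P i)) (tw u V) l) ∧
      (∀ J : Finset (Fin r), Good J u V → ℓ ≤ absLogHeight (fun j : J => (u j : Qbar))) ∧
      (∀ j i, (t + 1 : ℝ) * h1 (V j i) ≤ ℓ) ∧ (∀ α, (t + 1 : ℝ) * h1 (a α) ≤ ℓ) ∧
      (t : ℝ) + 1 ≤ ℓ := by
    intro t
    obtain ⟨a, u, V, h1, h2, h3, h4, h5⟩ := hcon (t + 1)
    have hp0 : ∃ p : Fin r × Fin (n + 1), V p.1 p.2 ≠ 0 := by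
      by_contra h
      push Not at h
      apply h2
      funext i
      refine Finset.sum_eq_zero fun j _ => ?_
      rw [h (j, i), mul_zero]
    obtain ⟨p0, hp0⟩ := hp0
    obtain ⟨c, hc⟩ : ∃ c : Qbar, c = (V p0.1 p0.2)⁻¹ := ⟨_, rfl⟩
    have hc0 : c ≠ 0 := by rw [hc]; exact inv_ne_zero hp0
    have hx : psum Finset.univ u (fun j i => c * V j i) =
        fun i => c * psum Finset.univ u V i := by
      funext i
      unfold Pool.Agent.Y215.SK.psum
      rw [Finset.mul_sum]
      exact Finset.sum_congr rfl fun j _ => by ring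
    have hV0 : 0 ≤ hV V := absLogHeight_nonneg _
    have ha0 := hA0 a
    have huniv : Good Finset.univ u V :=
      ⟨fun i b => mul_comm _ _, Function.ne_iff.1 h2⟩
    obtain ⟨J0, hJ0, hmin⟩ := Finset.exists_min_image
      (Finset.univ.filter (fun J : Finset (Fin r) => Good J u V))
      (fun J => absLogHeight (fun j : J => (u j : Qbar))) ⟨_, by simpa using huniv⟩
    rw [Finset.mem_filter] at hJ0
    have h6 := h5 J0 hJ0.2
    have h8 : (0 : ℝ) < t + 1 := by positivity
    refine ⟨a, u, fun j i => c * V j i, absLogHeight (fun j : J0 => (u j : Qbar)),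
      h1, ⟨?_, ?_, ?_⟩,
      ?_, ?_, ?_, ?_⟩
    · rw [hx]
      intro h
      apply h2
      funext i
      have := congrFun h i
      exact (mul_eq_zero.1 this).resolve_left hc0
    · intro i
      obtain ⟨e, he⟩ := hP i
      have he' : (fam a (P i)).IsHomogeneous e := he.map _
      rw [hx, aeval_hom_smul _ he', h3, mul_zero]
    · intro l hl
      refine h4 l (CurveOn.unscale (fun i => (hP i).imp fun e he => he.map _) hc0 ?_)
      have h9 : (fun j i => c * tw u V j i) = tw u (fun j i => c * V j i) := by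
        funext j i
        unfold tw
        ring
      rw [h9]
      exact hl
    · intro J hJ
      exact hmin J (by
        rw [Finset.mem_filter]
        exact ⟨Finset.mem_univ _, good_smul J u V c hJ⟩)
    · intro j i
      have h6' : Pool.Agent.Y215.SK.h1 (c * V j i) ≤ hV V := by
        rw [hc, ← div_eq_inv_mul]
        exact h1_ratio_le (fun p : Fin r × Fin (n + 1) => V p.1 p.2) (j, i) p0 hp0
      have h7 : (t + 1 : ℝ) * Pool.Agent.Y215.SK.h1 (c * V j i) ≤ (t + 1) * hV V :=
        mul_le_mul_of_nonneg_left h6' (by positivity)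
      nlinarith
    · intro α
      have h6' : Pool.Agent.Y215.SK.h1 (a α) ≤ hA a := by
        have h9 := h1_ratio_le (fun o : Option A => o.elim (1 : Qbar) a) (some α) none
          (by simp)
        simpa [hA] using h9
      have h7 : (t + 1 : ℝ) * Pool.Agent.Y215.SK.h1 (a α) ≤ (t + 1) * hA a :=
        mul_le_mul_of_nonneg_left h6' (by positivity)
      nlinarith
    · nlinarith
  choose a u V L hu hx hmin hVh hah hxh using hcon2
  have hL : Tendsto L atTop atTop := by
    refine tendsto_atTop_mono (fun t => le_trans (by linarith) (hxh t)) tendsto_natCast_atTop_atTop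
  obtain ⟨ρ, D, C0, hD⟩ := exists_grp Γ hΓ
  choose s q hs0 hsh hus using fun (t : ℕ) (j : Fin r) => hD (u t j) (hu t j)
  -- germs
  have hUg : ∀ j, gm (fun t => s t j) * yy D (fun t => q t j) = gm (fun t => (u t j : Qbar)) := by
    intro j
    unfold yy
    rw [gm_mul]
    congr 1
    funext t
    exact (hus t j).symm
  have hJg : ∀ (J : Finset (Fin r)) i,
      ∑ j ∈ J, (gm (fun t => s t j) * yy D (fun t => q t j)) * gm (fun t => V t j i) =
      gm (fun t => psum J (u t) (V t) i) := by
    intro J i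
    simp_rw [hUg, gm_mul]
    rw [gm_sum]
    rfl
  have hsmall : ∀ b : ℕ → Qbar, (∀ t : ℕ, ((t : ℝ) + 1) * h1 (b t) ≤ L t) →
      gm b ∈ KK L hL := by
    intro b hb
    rw [mem_KK]
    intro ε hε
    filter_upwards [ev_of_atTop (Filter.eventually_ge_atTop ⌈1 / ε⌉₊)] with t ht
    have h2 := hb t
    have h3 : 1 / ε ≤ t := (Nat.le_ceil _).trans (by exact_mod_cast ht)
    rw [div_le_iff₀ hε] at h3
    have h4 := h1_nonneg (b t)
    have h5 : 1 ≤ ε * (t + 1) := by nlinarith
    calc h1 (b t) = 1 * h1 (b t) := (one_mul _).symm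
      _ ≤ ε * (t + 1) * h1 (b t) := mul_le_mul_of_nonneg_right h5 h4
      _ = ε * ((t + 1) * h1 (b t)) := by ring
      _ ≤ ε * L t := mul_le_mul_of_nonneg_left h2 hε.le
  -- the parameters
  have hch : CharZero GQ := charZero_of_injective_ringHom (cst : Qbar →+* GQ).injective
  let aK : A → KK L hL := fun α => ⟨gm (fun t => a t α), hsmall _ fun t => hah t α⟩
  have hmapK : ∀ p : MvPolynomial (Fin (n + 1)) (MvPolynomial A ℤ),
      map (algebraMap (KK L hL) GQ) (fam aK p) = fam (fun α => gm (fun t => a t α)) p := by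
    intro p
    rw [fam_map]
    rfl
  obtain ⟨J, j1, hrat, hprop, a1, ha1⟩ := point_block (k := KK L hL) (fun i => fam aK (P i))
    (fun i => (hP i).imp fun e he => he.map _) 1 D L hL
    (fun b => b.2) q (fun j => gm (fun t => s t j))
    (fun j => mem_KK_of_le _ C0 (Filter.Eventually.of_forall fun t => hsh t j))
    (fun j => gm_ne_zero.2 (Filter.Eventually.of_forall fun t => hs0 t j))
    (fun j i => gm (fun t => V t j i))
    (fun j i => hsmall _ fun t => hVh t j i)
    (fun l h1 h2 => by
      exfalso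
      have e1 : (fun j i => (gm (fun t => s t j) * yy D (fun t => q t j)) * gm (fun t => V t j i)) =
          fun j i => gm (fun t => tw (u t) (V t) j i) := by
        funext j i
        rw [hUg, gm_mul]
        rfl
      have h3 := curve_germ P (fun α t => a t α) (fun j i t => tw (u t) (V t) j i) l (by
        rw [← e1]
        refine ⟨fun i => ?_, h2⟩
        show aeval _ (fam (fun α => gm (fun t => a t α)) (P i)) = 0
        rw [← hmapK, aeval_map_algebraMap]
        exact h1 i)
      obtain ⟨t, ht⟩ := h3.exists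
      exact (hx t).2.2 l ht)
    (by
      intro i
      simp_rw [hJg]
      have h3 : aeval (fun i => gm (fun t => psum Finset.univ (u t) (V t) i)) (fam aK (P i)) =
          eval (fun i => gm (fun t => psum Finset.univ (u t) (V t) i))
            (fam (fun α => gm (fun t => a t α)) (P i)) := by
        rw [← hmapK, eval_map, ← aeval_def]
      rw [h3, eval_fam_gm, gm_eq_zero]
      refine Filter.Eventually.of_forall fun t => ?_
      have h4 := (hx t).2.1 i
      rw [aeval_def, ← eval_map] at h4
      simpa using h4)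
    (by
      rw [map_one]
      exact one_ne_zero)
    (by
      simp_rw [hJg]
      intro h
      have h2 : ∀ᶠ t in (UU : Filter ℕ), ∀ i, psum Finset.univ (u t) (V t) i = 0 := by
        rw [Filter.eventually_all]
        exact fun i => gm_eq_zero.1 (congrFun h i)
      obtain ⟨t, ht⟩ := h2.exists
      exact (hx t).1 (funext ht))
  simp_rw [hJg] at hprop ha1
  simp_rw [hUg] at hrat
  rw [gm_ne_zero] at ha1
  have hgood : ∀ᶠ t in (UU : Filter ℕ), Good J (u t) (V t) := by
    have h2 : ∀ᶠ t in (UU : Filter ℕ), ∀ i b, psum J (u t) (V t) i *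
        psum Finset.univ (u t) (V t) b = psum J (u t) (V t) b * psum Finset.univ (u t) (V t) i := by
      rw [Filter.eventually_all]
      intro i
      rw [Filter.eventually_all]
      intro b
      exact gm_eq.1 (hprop i b)
    filter_upwards [h2, ha1] with t h3 h4
    exact ⟨h3, a1, h4⟩
  have hev : ∀ᶠ t in (UU : Filter ℕ), ∀ j : J, h1 ((u t j : Qbar) / (u t j1 : Qbar)) ≤
      1 / (2 * (r + 1)) * L t := by
    rw [Filter.eventually_all]
    intro j
    have h2 := hrat j j.2
    rw [gm_div, mem_KK] at h2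
    exact h2 _ (by positivity)
  obtain ⟨t, ht1, ht2⟩ := (hgood.and hev).exists
  have h2 : L t ≤ r * (1 / (2 * (r + 1)) * L t) := by
    refine (hmin t J ht1).trans ?_
    have h3 := absLogHeight_smul (fun j : J => (u t j : Qbar)) (inv_ne_zero (u t j1).ne_zero)
    rw [← h3]
    refine (height_le_sum _).trans ?_
    have h4 : ∀ j ∈ (Finset.univ : Finset J),
        h1 ((((u t j1 : Qbar))⁻¹ • fun j : J => (u t j : Qbar)) j) ≤
        1 / (2 * (r + 1)) * L t := by
      intro j _
      rw [Pi.smul_apply, smul_eq_mul, ← div_eq_inv_mul]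
      exact ht2 j
    refine (Finset.sum_le_sum h4).trans ?_
    rw [Finset.sum_const, Finset.card_univ, Fintype.card_coe, nsmul_eq_mul]
    have h5 : (J.card : ℝ) ≤ r := by
      have := Finset.card_le_univ J
      rw [Fintype.card_fin] at this
      exact_mod_cast this
    have h6 : 0 ≤ L t := le_trans (by positivity) (hxh t)
    exact mul_le_mul_of_nonneg_right h5 (by positivity)
  have h3 := hxh t
  have h4 : (0 : ℝ) ≤ t := Nat.cast_nonneg t
  have h5 : (r : ℝ) * (1 / (2 * (r + 1)) * L t) ≤ L t / 2 := by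
    have h6 : (0 : ℝ) < r + 1 := by positivity
    have h7 : (r : ℝ) * (1 / (2 * (r + 1)) * L t) = (r / (r + 1)) * (L t / 2) := by
      field_simp
    rw [h7]
    have h8 : (r : ℝ) / (r + 1) ≤ 1 := by
      rw [div_le_one h6]
      linarith
    have h9 : 0 ≤ L t / 2 := by linarith
    nlinarith
  linarith


end Pool.Agent.Q204.UF
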