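import Mathlib
import Pool.Agent.Q204.UF.Near
import Pool.Agent.Q51.UF.Pairs

set_option autoImplicit false
set_option linter.unusedSectionVars false

/-!
# All systems of forms: heights and numbers of points that are not on rational curves
-/

namespace Pool.Agent.Q204.UF

open Finset MvPolynomial
open Pool.Agent.Helper259.AbsHt Pool.Agent.H533R3.SL Pool.Agent.Y215.SP Pool.Agent.Y215.SK
open Pool.Agent.Y215.AF (hA)
open Pool.Agent.Q51.UF Pool.Agent.Q51.HG

variable {n q r : ℕ}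

/-- `t ↦ ∑ t ^ l_j W_j` is a curve on `F = 0` which is not constant as a map to projective space -/
def RatCurve (F : Fin q → MvPolynomial (Fin (n + 1)) Qbar) (W : Fin r → Fin (n + 1) → Qbar)
    (l : Fin r → ℕ) : Prop :=
  (∀ (t : Qbar) (i : Fin q), aeval (fun a => ∑ j, t ^ l j * W j a) (F i) = 0) ∧
    ∃ t : Qbar, t ≠ 0 ∧ ∀ c : Qbar, (fun a => ∑ j, t ^ l j * W j a) ≠ fun a => c * ∑ j, W j a

theorem cur_eval_t (W : Fin r → Fin (n + 1) → Qbar) (l : Fin r → ℕ) (t : Qbar) (i : Fin (n + 1)) :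
    (cur W l i).eval t = ∑ j, t ^ l j * W j i := by
  unfold cur
  rw [Polynomial.eval_finsetSum]
  refine Finset.sum_congr rfl fun j _ => ?_
  rw [Polynomial.eval_mul, Polynomial.eval_C, Polynomial.eval_pow, Polynomial.eval_X, mul_comm]

theorem ratCurve_of (F : Fin q → MvPolynomial (Fin (n + 1)) Qbar) (W : Fin r → Fin (n + 1) → Qbar)
    (l : Fin r → ℕ) : CurveOn F W l → RatCurve F W l := by
  rintro ⟨h1, i, i', h2⟩
  refine ⟨fun t i => ?_, ?_⟩
  · have h3 := congrArg (fun p : Polynomial Qbar => p.eval t) (h1 i)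
    simp only [Polynomial.eval_zero] at h3
    rw [Pool.Agent.Y215.AF.aeval_eval] at h3
    simpa only [cur_eval_t] using h3
  · have h3 : cur W l i * Polynomial.C (∑ j, W j i') - cur W l i' * Polynomial.C (∑ j, W j i) ≠ 0 :=
      sub_ne_zero.2 h2
    have h4 : (Polynomial.X * (cur W l i * Polynomial.C (∑ j, W j i') -
        cur W l i' * Polynomial.C (∑ j, W j i)) : Polynomial Qbar) ≠ 0 :=
      mul_ne_zero Polynomial.X_ne_zero h3
    obtain ⟨t, ht⟩ : ∃ t : Qbar, (Polynomial.X * (cur W l i * Polynomial.C (∑ j, W j i') -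
        cur W l i' * Polynomial.C (∑ j, W j i)) : Polynomial Qbar).eval t ≠ 0 := by
      by_contra h
      push Not at h
      exact h4 (Polynomial.funext fun t => by rw [h t, Polynomial.eval_zero])
    rw [Polynomial.eval_mul, Polynomial.eval_X] at ht
    refine ⟨t, left_ne_zero_of_mul ht, fun c hc => right_ne_zero_of_mul ht ?_⟩
    have h5 : ∑ j, t ^ l j * W j i = c * ∑ j, W j i := congrFun hc i
    have h6 : ∑ j, t ^ l j * W j i' = c * ∑ j, W j i' := congrFun hc i'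
    rw [Polynomial.eval_sub, Polynomial.eval_mul, Polynomial.eval_mul, Polynomial.eval_C,
      Polynomial.eval_C, cur_eval_t, cur_eval_t, h5, h6]
    ring

/-- **The height inequality for all systems of forms.** -/
theorem gen_heights (d : Fin q → ℕ) (D : ℕ) (hD : 1 ≤ D) (hdD : ∀ i, d i ≤ D)
    (Γ : Subgroup Qbarˣ) (hΓ : Γ.FG) :
    ∃ C : ℝ, 0 ≤ C ∧ ∀ (F : Fin q → MvPolynomial (Fin (n + 1)) Qbar)
      (u : Fin r → Qbarˣ) (V : Fin r → Fin (n + 1) → Qbar),
      (∀ i, (F i).IsHomogeneous (d i)) → (∀ j, u j ∈ DivHull Γ) →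
      psum Finset.univ u V ≠ 0 → (∀ i, aeval (psum Finset.univ u V) (F i) = 0) →
      (∀ l : Fin r → ℕ, (∀ j, l j ≤ expB D r) → ¬ CurveOn F (tw u V) l) →
      absLogHeight (psum Finset.univ u V) ≤ C * (1 + hA (cof d F) + hV V) := by
  classical
  obtain ⟨C, hC⟩ := mult_pt (r := r) (uF n d) (fun i => ⟨d i, uF_homogeneous d i⟩) Γ hΓ
  refine ⟨|C| + (r + 1) + 1, by positivity, fun F u V hF hu hx0 hx hno => ?_⟩
  have hsys : (fun i => fam (cof d F) (uF n d i)) = F := by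
    funext i
    exact fam_uF d F hF i
  obtain ⟨J, hJ, hh⟩ := hC (cof d F) u V hu hx0 (by
    intro i
    rw [fam_uF d F hF i]
    exact hx i) (by
    rw [hsys]
    intro l hl
    obtain ⟨l', hl', hc⟩ := hl.bounded D hD (fun i => ⟨d i, hdD i, hF i⟩)
    exact hno l' hl' hc)
  obtain ⟨c, hc, hc2⟩ := good_prop J u V hJ hx0
  have h3 := psum_height J u V
  rw [hc2, absLogHeight_smul _ hc] at h3
  have h6 : 0 ≤ hV V := absLogHeight_nonneg _
  have h6' := hA_cof_nonneg d F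
  have h7 : C * (1 + hA (cof d F) + hV V) ≤ |C| * (1 + hA (cof d F) + hV V) :=
    mul_le_mul_of_nonneg_right (le_abs_self C) (by linarith)
  have h8 : (0 : ℝ) ≤ r := Nat.cast_nonneg r
  nlinarith [mul_nonneg h8 h6, mul_nonneg h8 h6']

/-- **The number of points which are not on curves, for all systems of forms.** -/
theorem gen_near (d : Fin q → ℕ) (D : ℕ) (hD : 1 ≤ D) (hdD : ∀ i, d i ≤ D)
    (Γ : Subgroup Qbarˣ) (hΓ : Γ.FG) :
    ∃ (B : ℝ) (e : ℕ), 0 ≤ B ∧ ∀ (F : Fin q → MvPolynomial (Fin (n + 1)) Qbar)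
      (V : Fin r → Fin (n + 1) → Qbar), (∀ i, (F i).IsHomogeneous (d i)) →
      (nearP F Γ (epsn ((D + 1) ^ r) / D / 2) V).Finite ∧
      ((nearP F Γ (epsn ((D + 1) ^ r) / D / 2) V).ncard : ℝ) ≤
        B * (1 + hA (cof d F) + hV V) ^ e := by
  classical
  obtain ⟨B, e, hB⟩ := near_pt (r := r) (uF n d) D hD
    (fun i => ⟨d i, hdD i, uF_homogeneous d i⟩) Γ hΓ
  refine ⟨|B|, e, abs_nonneg _, fun F V hF => ?_⟩
  have hsys : (fun i => fam (cof d F) (uF n d i)) = F := by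
    funext i
    exact fam_uF d F hF i
  obtain ⟨h1, h2⟩ := hB (cof d F) V
  rw [hsys] at h1 h2
  refine ⟨h1, h2.trans ?_⟩
  have h4 := hA_cof_nonneg d F
  have h6 : 0 ≤ hV V := absLogHeight_nonneg _
  exact mul_le_mul_of_nonneg_right (le_abs_self B) (by positivity)

/-- The point with the homogeneous coordinates `x` lies on a rational curve of degree at most `E`
on `F = 0`: there are polynomials `p a` of degree at most `E` with `F (p) = 0` such that `p (1)` is
proportional to `x` and `p` is not constant as a map to projective space. -/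
def OnRat (E : ℕ) (F : Fin q → MvPolynomial (Fin (n + 1)) Qbar) (x : Fin (n + 1) → Qbar) : Prop :=
  ∃ p : Fin (n + 1) → Polynomial Qbar, (∀ a, (p a).natDegree ≤ E) ∧ (∀ i, aeval p (F i) = 0) ∧
    (∃ c : Qbar, c ≠ 0 ∧ ∀ a, (p a).eval 1 = c * x a) ∧
    ∃ a b, p a * Polynomial.C (x b) ≠ p b * Polynomial.C (x a)

theorem onRat_of_curve (E : ℕ) (F : Fin q → MvPolynomial (Fin (n + 1)) Qbar)
    (W : Fin r → Fin (n + 1) → Qbar) (l : Fin r → ℕ) (hl : ∀ j, l j ≤ E)
    (x : Fin (n + 1) → Qbar) (c : Qbar) (hc : c ≠ 0) (hx : ∀ a, ∑ j, W j a = c * x a)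
    (h : CurveOn F W l) : OnRat E F x := by
  obtain ⟨h1, i, i', h2⟩ := h
  refine ⟨cur W l, fun a => ?_, h1, ⟨c, hc, fun a => ?_⟩, i, i', fun h3 => h2 ?_⟩
  · unfold cur
    refine Polynomial.natDegree_sum_le_of_forall_le _ _ fun j _ => ?_
    refine (Polynomial.natDegree_C_mul_X_pow_le _ _).trans (hl j)
  · rw [cur_eval_one, hx]
  · rw [hx, hx, Polynomial.C_mul, Polynomial.C_mul]
    linear_combination (Polynomial.C c) * h3

/-- points which are not on rational curves -/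
def nearR (E : ℕ) (F : Fin q → MvPolynomial (Fin (n + 1)) Qbar) (Γ : Subgroup Qbarˣ) (ε : ℝ)
    (V : Fin r → Fin (n + 1) → Qbar) : Set (Projectivization Qbar (Fin (n + 1) → Qbar)) :=
  {p | ∃ (u : Fin r → Qbarˣ) (s : Fin r → Qbar), (∀ j, u j ∈ DivHull Γ) ∧ absLogHeight s < ε ∧
    (∀ i, aeval (fun a => ∑ j, (u j : Qbar) * s j * V j a) (F i) = 0) ∧
    ¬ OnRat E F (fun a => ∑ j, (u j : Qbar) * s j * V j a) ∧
    ∃ h : (fun a => ∑ j, (u j : Qbar) * s j * V j a) ≠ 0, p = Projectivization.mk Qbar _ h}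

theorem nearR_sub (D : ℕ) (hD : 1 ≤ D) (F : Fin q → MvPolynomial (Fin (n + 1)) Qbar)
    (hF : ∀ i, ∃ e, e ≤ D ∧ (F i).IsHomogeneous e)
    (Γ : Subgroup Qbarˣ) (ε : ℝ) (V : Fin r → Fin (n + 1) → Qbar) :
    nearR (expB D r) F Γ ε V ⊆ nearP F Γ ε V := by
  rintro p ⟨u, s, hu, hs, h1, h2, h3, rfl⟩
  have he : psum Finset.univ u (fun j a => s j * V j a) =
      fun a => ∑ j, (u j : Qbar) * s j * V j a := by
    funext i
    unfold Pool.Agent.Y215.SK.psum
    exact Finset.sum_congr rfl fun j _ => by ring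
  refine ⟨u, s, hu, hs, by rw [he]; exact h1, ?_, by rw [he]; exact h3, ?_⟩
  · intro J l hc hl
    obtain ⟨l', hl', hc'⟩ := hl.bounded D hD hF
    obtain ⟨c, hc0, hc⟩ := hc
    refine h2 (onRat_of_curve _ F _ l' hl' _ c hc0 (fun a => ?_) hc')
    have h4 := hc a
    have h5 : ∑ j, tw u (fun j a => s j * V j a) j a = ∑ j, (u j : Qbar) * s j * V j a :=
      Finset.sum_congr rfl fun j _ => by unfold tw; ring
    rw [h5] at h4
    rw [← h4]
    simp
  · congr 1
    exact he.symm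

/-- the bounded form of `NoCur` -/
theorem noCur_of_bounded (F : Fin q → MvPolynomial (Fin (n + 1)) Qbar) (D : ℕ) (hD : 1 ≤ D)
    (hF : ∀ i, ∃ e, e ≤ D ∧ (F i).IsHomogeneous e) (W : Fin r → Fin (n + 1) → Qbar)
    (h : ∀ (J : Finset (Fin r)) (l : Fin r → ℕ), (∀ j, l j ≤ expB D r) →
      (∃ c : Qbar, c ≠ 0 ∧ ∀ a, ∑ j ∈ J, W j a = c * ∑ j, W j a) →
      ¬ CurveOn F (fun j a => if j ∈ J then W j a else 0) l) : NoCur F W := by
  intro J l hc hl
  obtain ⟨l', hl', hc'⟩ := hl.bounded D hD hF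
  exact h J l' hl' hc hc'

end Pool.Agent.Q204.UF
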