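import Mathlib
import Pool.Agent.Q204.UF.Gen
import Pool.Agent.Q51.UF.Aff

set_option autoImplicit false
set_option linter.unusedSectionVars false

/-!
# All systems of polynomials: heights of points that are not on curves with Laurent coordinates
-/

namespace Pool.Agent.Q204.UF

open Finset MvPolynomial
open Pool.Agent.Helper259.AbsHt Pool.Agent.H533R3.SL Pool.Agent.Y215.SP Pool.Agent.Y215.SK
open Pool.Agent.Y215.AF Pool.Agent.W235.RM
open Pool.Agent.Q51.UF Pool.Agent.Q51.HG
open Pool.Agent.TH182.VD (CI)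

variable {n q r : ℕ}

/-- the exponents of degree at most `D` -/
abbrev AI (n D : ℕ) : Type := {α : Fin n →₀ ℕ // α.degree ≤ D}

instance finite_AI (n D : ℕ) : Finite (AI n D) := by
  have h : ∀ (α : AI n D) (i : Fin n), α.1 i < D + 1 := by
    intro α i
    have h1 := α.2
    rw [Finsupp.degree_eq_sum] at h1
    have h2 : α.1 i ≤ ∑ i, α.1 i :=
      Finset.single_le_sum (f := fun i => α.1 i) (fun _ _ => Nat.zero_le _) (Finset.mem_univ i)
    omega
  exact Finite.of_injective (fun α : AI n D => fun i => (⟨α.1 i, h α i⟩ : Fin (D + 1)))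
    fun α β hab => Subtype.ext (Finsupp.ext fun i => by
      have := congrFun hab i
      simpa using this)

/-- the height of the point with the coordinates `1` and the coefficients of the `F i` -/
noncomputable def hFc (D : ℕ) (F : Fin q → MvPolynomial (Fin n) Qbar) : ℝ :=
  hA (fun x : Fin q × AI n D => coeff x.2.1 (F x.1))

theorem hFc_nonneg (D : ℕ) (F : Fin q → MvPolynomial (Fin n) Qbar) : 0 ≤ hFc D F := hA_nonneg _

theorem degree_tail (β : Fin (n + 1) →₀ ℕ) : β.degree = β 0 + (Finsupp.tail β).degree := by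
  rw [Finsupp.degree_eq_sum, Finsupp.degree_eq_sum, Fin.sum_univ_succ]
  rfl

theorem coeff_hmg (D : ℕ) (F : MvPolynomial (Fin n) Qbar) (β : Fin (n + 1) →₀ ℕ)
    (hβ : β.degree = D) : coeff β (hmg D F) = coeff (Finsupp.tail β) F := by
  classical
  have h0 : Finsupp.cons (D - ∑ i, Finsupp.tail β i) (Finsupp.tail β) = β := by
    have h1 : D - ∑ i, Finsupp.tail β i = β 0 := by
      have := degree_tail β
      rw [Finsupp.degree_eq_sum (Finsupp.tail β)] at this
      omega
    rw [h1]
    exact Finsupp.cons_tail β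
  unfold hmg
  rw [coeff_sum]
  simp_rw [coeff_monomial]
  by_cases h : Finsupp.tail β ∈ F.support
  · rw [Finset.sum_eq_single (Finsupp.tail β)]
    · rw [if_pos h0]
    · intro α _ hα
      rw [if_neg]
      intro h1
      apply hα
      rw [← h1, Finsupp.tail_cons]
    · intro h1
      exact absurd h h1
  · rw [notMem_support_iff.1 h]
    refine Finset.sum_eq_zero fun α hα => ?_
    rw [if_neg]
    intro h1
    apply h
    rw [← h1, Finsupp.tail_cons]
    exact hα

theorem cof_hmg_le (D : ℕ) (F : Fin q → MvPolynomial (Fin n) Qbar) :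
    hA (cof (n := n) (fun _ : Fin q => D) (fun i => hmg D (F i))) ≤ hFc D F := by
  unfold hFc hA
  have h := absLogHeight_comp_le (fun o : Option (CI n (fun _ : Fin q => D)) =>
    o.map (fun x => ((x.1, ⟨Finsupp.tail x.2.1, by
      have h1 := degree_tail x.2.1
      have h2 : x.2.1.degree = D := x.2.2
      omega⟩) : Fin q × AI n D)))
    (fun o : Option (Fin q × AI n D) => o.elim (1 : Qbar) (fun x => coeff x.2.1 (F x.1)))
  refine le_trans (le_of_eq ?_) h
  congr 1
  funext o
  cases o with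
  | none => rfl
  | some x =>
    show cof (n := n) (fun _ : Fin q => D) (fun i => hmg D (F i)) x = _
    unfold cof
    rw [coeff_hmg D _ _ x.2.2]
    rfl

/-- `t ↦ ∑ t ^ m_j W_j`, `t ≠ 0`, is a nonconstant curve on `F = 0` -/
def LCurve (F : Fin q → MvPolynomial (Fin n) Qbar) (W : Fin r → Fin n → Qbar) (m : Fin r → ℤ) :
    Prop :=
  (∀ t : Qbar, t ≠ 0 → ∀ i, aeval (fun a => ∑ j, t ^ m j * W j a) (F i) = 0) ∧
    ∃ t : Qbar, t ≠ 0 ∧ (fun a => ∑ j, t ^ m j * W j a) ≠ fun a => ∑ j, W j a

theorem lc_eq (c : Fin r → Fin n → Qbar) (l : Fin (r + 1) → ℕ) (t : Qbar) (ht : t ≠ 0) :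
    lc c l t = fun a => ∑ j, t ^ ((l (Fin.succ j) : ℤ) - (l 0 : ℤ)) * c j a := by
  funext a
  unfold lc
  rw [div_eq_iff (pow_ne_zero _ ht), Finset.sum_mul]
  refine Finset.sum_congr rfl fun j _ => ?_
  rw [zpow_sub₀ ht, zpow_natCast, zpow_natCast]
  have := pow_ne_zero (l 0) ht
  field_simp

theorem lcurve_of_curve (D : ℕ) (F : Fin q → MvPolynomial (Fin n) Qbar)
    (hF : ∀ i, (F i).totalDegree ≤ D) (c : Fin r → Fin n → Qbar) (l : Fin (r + 1) → ℕ) (E : ℕ)
    (hl : ∀ j, l j ≤ E) (h : CurveOn (fun i => hmg D (F i)) (homC c) l) :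
    ∃ m : Fin r → ℤ, (∀ j, |m j| ≤ E) ∧ LCurve F c m := by
  obtain ⟨h1, i, i', h2⟩ := h
  refine ⟨fun j => (l (Fin.succ j) : ℤ) - (l 0 : ℤ), fun j => ?_, fun t ht i => ?_, ?_⟩
  · have h3 := hl (Fin.succ j)
    have h4 := hl 0
    show |(l (Fin.succ j) : ℤ) - (l 0 : ℤ)| ≤ E
    rw [abs_le]
    constructor <;> omega
  · have h3 := lc_zero D (F i) (hF i) c l (h1 i) t ht
    rwa [lc_eq c l t ht] at h3
  · obtain ⟨k, hk⟩ := lc_nonconst c l i i' h2
    have h2k : (2 : Qbar) ^ k ≠ 0 := pow_ne_zero _ two_ne_zero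
    refine ⟨2 ^ k, h2k, ?_⟩
    rw [lc_eq c l _ h2k] at hk
    intro h3
    apply hk
    rw [h3]
    funext a
    rw [lc_one]

theorem tw_hom (u : Fin r → Qbarˣ) (V : Fin r → Fin n → Qbar) :
    tw (homU u) (homV V) = homC (fun j a => (u j : Qbar) * V j a) := by
  funext j i
  unfold tw homC homU homV
  refine Fin.cases ?_ (fun j => ?_) j
  · refine Fin.cases ?_ (fun i => ?_) i <;> simp
  · refine Fin.cases ?_ (fun i => ?_) i <;> simp

/-- **The height inequality for all systems of polynomials.** -/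
theorem aff_heights (D : ℕ) (hD : 1 ≤ D) (Γ : Subgroup Qbarˣ) (hΓ : Γ.FG) :
    ∃ C : ℝ, 0 ≤ C ∧ ∀ (F : Fin q → MvPolynomial (Fin n) Qbar)
      (u : Fin r → Qbarˣ) (V : Fin r → Fin n → Qbar),
      (∀ i, (F i).totalDegree ≤ D) → (∀ j, u j ∈ DivHull Γ) →
      (∀ i, aeval (fun a => ∑ j, (u j : Qbar) * V j a) (F i) = 0) →
      (∀ m : Fin r → ℤ, (∀ j, |m j| ≤ expB D (r + 1)) →
        ¬ LCurve F (fun j a => (u j : Qbar) * V j a) m) →
      hA (fun a => ∑ j, (u j : Qbar) * V j a) ≤ C * (1 + hFc D F + hAV V) := by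
  classical
  obtain ⟨C, hC0, hC⟩ := gen_heights (n := n) (r := r + 1) (fun _ : Fin q => D) D hD
    (fun _ => le_rfl) Γ hΓ
  refine ⟨C, hC0, fun F u V hF hu hx hno => ?_⟩
  have hps := psum_hom u V
  have h1 := hC (fun i => hmg D (F i)) (homU u) (homV V) (fun i => hmg_homog D _ (hF i))
    (homU_hull Γ u hu) (by rw [hps]; exact cons_one_ne _) (fun i => by
      rw [hps, cons_homA D _ (hF i)]
      exact hx i) (fun l hl hcur => by
      rw [tw_hom] at hcur
      obtain ⟨m, hm, hmc⟩ := lcurve_of_curve D F hF _ l _ hl hcur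
      exact hno m (fun j => by exact_mod_cast hm j) hmc)
  rw [hps] at h1
  refine (hA_le_cons _).trans (h1.trans ?_)
  refine mul_le_mul_of_nonneg_left ?_ hC0
  have h2 := cof_hmg_le (n := n) D F
  have h3 := hV_homV V
  linarith

/-- The point `x` lies on a nonconstant curve with Laurent coordinates of degree at most `E` on
`F = 0`: there are vectors `c k`, `|k| ≤ E`, with sum `x`, such that `∑ t ^ k c k` is a nonconstant
curve on `F = 0`. -/
def OnLaur (E : ℕ) (F : Fin q → MvPolynomial (Fin n) Qbar) (x : Fin n → Qbar) : Prop :=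
  ∃ c : ℤ → Fin n → Qbar,
    (∀ t : Qbar, t ≠ 0 → ∀ i, aeval (fun a => ∑ k ∈ Finset.Icc (-(E : ℤ)) E, t ^ k * c k a) (F i) = 0) ∧
    (∀ a, ∑ k ∈ Finset.Icc (-(E : ℤ)) E, c k a = x a) ∧
    ∃ t : Qbar, t ≠ 0 ∧ (fun a => ∑ k ∈ Finset.Icc (-(E : ℤ)) E, t ^ k * c k a) ≠ x

theorem onLaur_of_lcurve (E : ℕ) (F : Fin q → MvPolynomial (Fin n) Qbar)
    (W : Fin r → Fin n → Qbar) (m : Fin r → ℤ) (hm : ∀ j, |m j| ≤ E) (h : LCurve F W m) :
    OnLaur E F (fun a => ∑ j, W j a) := by
  classical
  have hsum : ∀ (t : Qbar) (a : Fin n), ∑ k ∈ Finset.Icc (-(E : ℤ)) E,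
      t ^ k * (∑ j ∈ Finset.univ.filter (fun j => m j = k), W j a) = ∑ j, t ^ m j * W j a := by
    intro t a
    rw [← Finset.sum_fiberwise_of_maps_to (s := Finset.univ) (t := Finset.Icc (-(E : ℤ)) E)
      (g := m) (fun j _ => Finset.mem_Icc.2 (abs_le.1 (hm j)))]
    refine Finset.sum_congr rfl fun k _ => ?_
    rw [Finset.mul_sum]
    refine Finset.sum_congr rfl fun j hj => ?_
    rw [(Finset.mem_filter.1 hj).2]
  refine ⟨fun k a => ∑ j ∈ Finset.univ.filter (fun j => m j = k), W j a, fun t ht i => ?_,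
    fun a => ?_, ?_⟩
  · simp_rw [hsum]
    exact h.1 t ht i
  · have := hsum 1 a
    simpa using this
  · obtain ⟨t, ht, hne⟩ := h.2
    refine ⟨t, ht, ?_⟩
    simp_rw [hsum]
    exact hne

/-- the points on `F = 0` of the form `∑ u_j s_j V_j`, `u_j` with a power in `Γ`, `h(1 : s) < ε`,
which are not on curves with Laurent coordinates of degree at most `E` on `F = 0` -/
def nearL (E : ℕ) (F : Fin q → MvPolynomial (Fin n) Qbar) (Γ : Subgroup Qbarˣ) (ε : ℝ)
    (V : Fin r → Fin n → Qbar) : Set (Fin n → Qbar) :=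
  {x | (∀ i, aeval x (F i) = 0) ∧ ¬ OnLaur E F x ∧ ∃ (u : Fin r → Qbarˣ) (s : Fin r → Qbar),
    (∀ j, u j ∈ DivHull Γ) ∧ hA s < ε ∧ ∀ a, x a = ∑ j, (u j : Qbar) * s j * V j a}

/-- **The number of points for all systems of polynomials.** -/
theorem aff_near (D : ℕ) (hD : 1 ≤ D) (Γ : Subgroup Qbarˣ) (hΓ : Γ.FG) :
    ∃ (B : ℝ) (e : ℕ), 0 ≤ B ∧ ∀ (F : Fin q → MvPolynomial (Fin n) Qbar)
      (V : Fin r → Fin n → Qbar), (∀ i, (F i).totalDegree ≤ D) →
      (nearL (expB D (r + 1)) F Γ (eps D r) V).Finite ∧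
      ((nearL (expB D (r + 1)) F Γ (eps D r) V).ncard : ℝ) ≤ B * (1 + hFc D F + hAV V) ^ e := by
  classical
  obtain ⟨B, e, hB0, hB⟩ := gen_near (n := n) (r := r + 1) (fun _ : Fin q => D) D hD
    (fun _ => le_rfl) Γ hΓ
  refine ⟨B, e, hB0, fun F V hF => ?_⟩
  obtain ⟨hfin, hcard⟩ := hB (fun i => hmg D (F i)) (homV V) (fun i => hmg_homog D _ (hF i))
  let θ : (Fin n → Qbar) → Projectivization Qbar (Fin (n + 1) → Qbar) := fun x =>
    Projectivization.mk Qbar (Fin.cons 1 x : Fin (n + 1) → Qbar) (cons_one_ne x)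
  have hmaps : ∀ x ∈ nearL (expB D (r + 1)) F Γ (eps D r) V,
      θ x ∈ nearP (fun i => hmg D (F i)) Γ (epsn ((D + 1) ^ (r + 1)) / D / 2) (homV V) := by
    rintro x ⟨hxF, hno, u, s, hu, hs, hx⟩
    have e3 : Y215.SK.psum Finset.univ (homU u) (fun j i =>
        (Fin.cons 1 s : Fin (r + 1) → Qbar) j * homV V j i) =
        (Fin.cons 1 x : Fin (n + 1) → Qbar) := by
      funext i
      unfold Y215.SK.psum
      rw [Fin.sum_univ_succ]
      refine Fin.cases ?_ (fun i => ?_) i
      · simp [homU, homV]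
      · simp only [homU, homV, Fin.cons_zero, Fin.cons_succ, mul_zero, zero_add]
        rw [hx i]
        exact Finset.sum_congr rfl fun j _ => by ring
    have e4 : tw (homU u) (fun j i => (Fin.cons 1 s : Fin (r + 1) → Qbar) j * homV V j i) =
        homC (fun j a => (u j : Qbar) * s j * V j a) := by
      funext j i
      unfold tw homC homU homV
      refine Fin.cases ?_ (fun j => ?_) j
      · refine Fin.cases ?_ (fun i => ?_) i <;> simp
      · refine Fin.cases ?_ (fun i => ?_) i
        · simp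
        · simp [mul_assoc]
    refine ⟨homU u, (Fin.cons 1 s : Fin (r + 1) → Qbar), homU_hull Γ u hu, ?_, ?_, ?_, ?_, ?_⟩
    · exact lt_of_le_of_lt (cons_le_hA s) hs
    · intro i
      rw [e3, cons_homA D _ (hF i)]
      exact hxF i
    · refine noCur_of_bounded _ D hD (fun i => ⟨D, le_rfl, hmg_homog D _ (hF i)⟩) _
        fun J l hl hJ hcur => ?_
      rw [e4] at hJ hcur
      obtain ⟨c, hc0, hc⟩ := hJ
      -- the first coordinate
      have h0 := hc 0
      have hs0 : ∑ j, homC (fun j a => (u j : Qbar) * s j * V j a) j 0 = 1 := by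
        have := congrFun (homC_sum (fun (j : Fin r) (a : Fin n) => (u j : Qbar) * s j * V j a)) 0
        simpa using this
      rw [hs0, mul_one] at h0
      have hcoord : ∀ j : Fin (r + 1), homC (fun j a => (u j : Qbar) * s j * V j a) j
          (0 : Fin (n + 1)) = if j = 0 then 1 else 0 := by
        intro j
        unfold homC
        refine Fin.cases ?_ (fun j => ?_) j
        · simp
        · simp
      simp_rw [hcoord] at h0
      rw [Finset.sum_ite_eq'] at h0
      have hJ0 : (0 : Fin (r + 1)) ∈ J := by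
        by_contra h
        rw [if_neg h] at h0
        exact hc0 h0.symm
      rw [if_pos hJ0] at h0
      subst h0
      -- the curve
      have e5 : (fun j a => if j ∈ J then homC (fun j a => (u j : Qbar) * s j * V j a) j a
          else 0 : Fin (r + 1) → Fin (n + 1) → Qbar) =
          homC (fun j a => if j.succ ∈ J then (u j : Qbar) * s j * V j a else 0) := by
        funext j i
        unfold homC
        refine Fin.cases ?_ (fun j => ?_) j
        · simp [hJ0]
        · refine Fin.cases ?_ (fun i => ?_) i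
          · simp
          · simp
      rw [e5] at hcur
      obtain ⟨m, hm, hmc⟩ := lcurve_of_curve D F hF _ l _ hl hcur
      apply hno
      have h6 := onLaur_of_lcurve _ F _ m hm hmc
      have h7 : (fun a => ∑ j : Fin r, if j.succ ∈ J then (u j : Qbar) * s j * V j a else 0) = x := by
        funext a
        have h8 := hc a.succ
        have h9 : ∑ j, homC (fun j a => (u j : Qbar) * s j * V j a) j a.succ = x a := by
          have := congrFun (homC_sum (fun (j : Fin r) (a : Fin n) => (u j : Qbar) * s j * V j a))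
            a.succ
          simp only [Fin.cons_succ] at this
          rw [this, hx a]
        rw [h9, one_mul] at h8
        have h10 : ∑ j ∈ J, homC (fun j a => (u j : Qbar) * s j * V j a) j a.succ =
            ∑ j, if j ∈ J then homC (fun j a => (u j : Qbar) * s j * V j a) j a.succ else 0 := by
          rw [Finset.sum_ite_mem, Finset.univ_inter]
        rw [← h8, h10, Fin.sum_univ_succ]
        simp [homC]
      rw [h7] at h6
      exact h6
    · rw [e3]
      exact cons_one_ne x
    · show Projectivization.mk Qbar (Fin.cons 1 x : Fin (n + 1) → Qbar) (cons_one_ne x) = _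
      congr 1
      exact e3.symm
  have hinj : Set.InjOn θ (nearL (expB D (r + 1)) F Γ (eps D r) V) := by
    intro x _ y _ hxy
    obtain ⟨c, hc⟩ := (Projectivization.mk_eq_mk_iff' Qbar _ _ (cons_one_ne x)
      (cons_one_ne y)).1 hxy
    have h0 := congrFun hc 0
    rw [Pi.smul_apply, Fin.cons_zero, Fin.cons_zero, smul_eq_mul, mul_one] at h0
    rw [h0, one_smul] at hc
    funext i
    have := congrFun hc i.succ
    rw [Fin.cons_succ, Fin.cons_succ] at this
    exact this.symm
  have hfin' : (nearL (expB D (r + 1)) F Γ (eps D r) V).Finite :=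
    Set.Finite.of_injOn hmaps hinj hfin
  refine ⟨hfin', ?_⟩
  have h1 := Set.ncard_le_ncard_of_injOn θ hmaps hinj hfin
  refine (le_trans (by exact_mod_cast h1) hcard).trans ?_
  have h2 := cof_hmg_le (n := n) D F
  have h3 := hV_homV V
  have h4 : 0 ≤ hA (cof (n := n) (fun _ : Fin q => D) (fun i => hmg D (F i))) := hA_nonneg _
  have h5 : 0 ≤ hV (homV V) := absLogHeight_nonneg _
  exact mul_le_mul_of_nonneg_left (pow_le_pow_left₀ (by linarith) (by linarith) _) hB0

end Pool.Agent.Q204.UF
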