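import Mathlib
import Pool.Agent.Q204.UF.Aff

set_option autoImplicit false
set_option linter.unusedSectionVars false

/-!
# Pairs: closed subsets of projective space and a hypersurface section
-/

namespace Pool.Agent.Q204.UF

open Finset MvPolynomial
open Pool.Agent.Helper259.AbsHt Pool.Agent.H533R3.SL Pool.Agent.Y215.SP Pool.Agent.Y215.SK
open Pool.Agent.Y215.AF Pool.Agent.W235.RM
open Pool.Agent.Q51.UF Pool.Agent.Q51.HG
open Pool.Agent.TH182.VD (CI)

variable {n q r : ℕ}

/-! ### Heights -/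

theorem hA_le_add {σ τ τ' : Type} [Finite σ] [Finite τ] [Finite τ'] (z : σ → Qbar) (x : τ → Qbar)
    (y : τ' → Qbar) (h : ∀ s, ∃ (o : Option τ) (k : Option τ'),
      z s = o.elim (1 : Qbar) x * k.elim (1 : Qbar) y) : hA z ≤ hA x + hA y := by
  have hx0 : (fun o : Option τ => o.elim (1 : Qbar) x) ≠ 0 := by
    intro h0
    have := congrFun h0 none
    simp at this
  have hy0 : (fun o : Option τ' => o.elim (1 : Qbar) y) ≠ 0 := by
    intro h0
    have := congrFun h0 none
    simp at this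
  choose o k hok using h
  have := Fintype.ofFinite σ
  have := Fintype.ofFinite τ
  have := Fintype.ofFinite τ'
  have h2 := height_mul_le (fun o : Option τ => o.elim (1 : Qbar) x)
    (fun o : Option τ' => o.elim (1 : Qbar) y) hx0 hy0
    (τ := Option σ) (fun s => s.elim none o) (fun s => s.elim none k)
  unfold hA
  refine le_trans (le_of_eq ?_) h2
  refine congrArg absLogHeight (funext fun s => ?_)
  cases s with
  | none => simp
  | some s => exact hok s

theorem hA_m1 : hA ![(-1 : Qbar), 0] ≤ 0 := by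
  classical
  unfold hA
  refine (height_le_sum _).trans ?_
  rw [Fintype.sum_option, Fin.sum_univ_two]
  simp [h1_zero, h1_one, h1_neg]

theorem hA_b (b : Qbar) : hA ![-b, 0] ≤ hA ![b] := by
  have h := hA_le_add ![-b, 0] ![b] ![(-1 : Qbar), 0] (fun s => by
    fin_cases s
    · exact ⟨some 0, some 0, by simp⟩
    · exact ⟨none, some 1, by simp⟩)
  have := hA_m1
  linarith

/-! ### The system -/

/-- the equations `F i (x) = 0`, `i ≠ 0`, and `F 0 (x) = b z ^ e`, in the variables `z, x` -/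
noncomputable def pairF (e : ℕ) (b : Qbar) (F : Fin (q + 1) → MvPolynomial (Fin (n + 1)) Qbar)
    (i : Fin (q + 1)) : MvPolynomial (Fin (n + 2)) Qbar :=
  rename Fin.succ (F i) - (if i = 0 then C b * X 0 ^ e else 0)

theorem pairF_hom (d : Fin (q + 1) → ℕ) (b : Qbar)
    (F : Fin (q + 1) → MvPolynomial (Fin (n + 1)) Qbar) (hF : ∀ i, (F i).IsHomogeneous (d i))
    (i : Fin (q + 1)) : (pairF (d 0) b F i).IsHomogeneous (d i) := by
  unfold pairF
  refine ((hF i).rename_isHomogeneous).sub ?_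
  split_ifs with h
  · rw [h]
    have h1 : (C b * X 0 ^ d 0 : MvPolynomial (Fin (n + 2)) Qbar).IsHomogeneous (0 + 1 * d 0) :=
      (isHomogeneous_C _ _).mul ((isHomogeneous_X _ _).pow _)
    simpa using h1
  · exact isHomogeneous_zero _ _ _

theorem aeval_pairF {R : Type} [CommRing R] [Algebra Qbar R] (e : ℕ) (b : Qbar)
    (F : Fin (q + 1) → MvPolynomial (Fin (n + 1)) Qbar) (i : Fin (q + 1)) (y : Fin (n + 2) → R) :
    aeval y (pairF e b F i) = aeval (fun a => y (Fin.succ a)) (F i) -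
      (if i = 0 then algebraMap Qbar R b * y 0 ^ e else 0) := by
  unfold pairF
  rw [map_sub, aeval_rename]
  congr 1
  split_ifs with h
  · rw [map_mul, map_pow, aeval_X, aeval_C]
  · rw [map_zero]

theorem coeff_rename_cases (G : MvPolynomial (Fin (n + 1)) Qbar) (e : ℕ) (hG : G.IsHomogeneous e)
    (β : Fin (n + 2) →₀ ℕ) : coeff β (rename Fin.succ G) = 0 ∨
      (β 0 = 0 ∧ ∃ α : Fin (n + 1) →₀ ℕ, α.degree = e ∧ coeff β (rename Fin.succ G) = coeff α G) := by
  by_cases h : coeff β (rename Fin.succ G) = 0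
  · exact Or.inl h
  · right
    obtain ⟨α, hα, hne⟩ := coeff_rename_ne_zero _ _ _ h
    refine ⟨?_, α, ?_, ?_⟩
    · rw [← hα]
      refine Finsupp.mapDomain_of_notMem_range _ _ ?_
      rintro ⟨a, ha⟩
      exact Fin.succ_ne_zero _ ha
    · have := hG hne
      rw [Finsupp.degree_eq_weight_one]
      exact this
    · rw [← hα, coeff_rename_mapDomain _ (Fin.succ_injective _)]

theorem cof_pairF_le (d : Fin (q + 1) → ℕ) (hd : 1 ≤ d 0) (b : Qbar)
    (F : Fin (q + 1) → MvPolynomial (Fin (n + 1)) Qbar) (hF : ∀ i, (F i).IsHomogeneous (d i)) :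
    hA (cof d (pairF (d 0) b F)) ≤ hA (cof d F) + hA ![b] := by
  classical
  refine (hA_le_add (cof d (pairF (d 0) b F)) (cof d F) ![-b, 0] ?_).trans
    (by linarith [hA_b b])
  rintro ⟨i, β, hβ⟩
  have h0 : cof d (pairF (d 0) b F) ⟨i, β, hβ⟩ = coeff β (rename Fin.succ (F i)) -
      (if i = 0 then b * (if Finsupp.single 0 (d 0) = β then 1 else 0) else 0) := by
    unfold cof pairF
    rw [coeff_sub]
    congr 1
    split_ifs with h h'
    · rw [coeff_C_mul, coeff_X_pow, if_pos h']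
    · rw [coeff_C_mul, coeff_X_pow, if_neg h']
    · rw [coeff_zero]
  rw [h0]
  by_cases h1 : i = 0 ∧ Finsupp.single 0 (d 0) = β
  · have h2 : coeff β (rename Fin.succ (F i)) = 0 := by
      rcases coeff_rename_cases (F i) (d i) (hF i) β with h | ⟨h, _⟩
      · exact h
      · rw [← h1.2, Finsupp.single_eq_same] at h
        omega
    refine ⟨none, some 0, ?_⟩
    rw [h2, if_pos h1.1, if_pos h1.2]
    simp
  · have h2 : (if i = 0 then b * (if Finsupp.single 0 (d 0) = β then 1 else 0) else 0) = 0 := by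
      split_ifs with h h'
      · exact absurd ⟨h, h'⟩ h1
      · rw [mul_zero]
      · rfl
    rw [h2, sub_zero]
    rcases coeff_rename_cases (F i) (d i) (hF i) β with h | ⟨_, α, hα, h⟩
    · exact ⟨none, some 1, by rw [h]; simp⟩
    · exact ⟨some ⟨i, α, hα⟩, none, by rw [h]; simp [cof]⟩

/-! ### Curves in the complement of the divisor -/

/-- `t ↦ p (t)` is a nonconstant map from the multiplicative group to the complement of `F 0 = 0`
in the closed subset `F i = 0`, `i ≠ 0`, of projective space -/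
def GmCurve {K : Type} [Field K] (F : Fin (q + 1) → MvPolynomial (Fin (n + 1)) K)
    (p : Fin (n + 1) → Polynomial K) : Prop :=
  (∀ i, i ≠ 0 → aeval p (F i) = 0) ∧
    (∃ (k : ℕ) (c : K), c ≠ 0 ∧ aeval p (F 0) = Polynomial.C c * Polynomial.X ^ k) ∧
    ∃ a a' : Fin (n + 1), p a * Polynomial.C ((p a').eval 1) ≠ p a' * Polynomial.C ((p a).eval 1)

theorem eq_X_pow (g : Polynomial Qbar) (k e : ℕ) (he : 1 ≤ e)
    (h : g ^ e = Polynomial.X ^ (k * e)) (h1 : g.eval 1 = 1) : g = Polynomial.X ^ k := by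
  have hdvd : g ∣ Polynomial.X ^ (k * e) := by
    rw [← h]
    exact dvd_pow_self g (by omega)
  obtain ⟨i, hi, hass⟩ := (dvd_prime_pow Polynomial.prime_X _).1 hdvd
  obtain ⟨u, hu⟩ := hass
  obtain ⟨c, hc, hcu⟩ := Polynomial.isUnit_iff.1 u.isUnit
  have hg : g * Polynomial.C c = Polynomial.X ^ i := by rw [hcu, hu]
  have hc1 : c = 1 := by
    have h3 := congrArg (Polynomial.eval 1) hg
    rw [Polynomial.eval_mul, h1, Polynomial.eval_C, Polynomial.eval_pow, Polynomial.eval_X,
      one_pow, one_mul] at h3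
    exact h3
  rw [hc1, Polynomial.C_1, mul_one] at hg
  rw [hg] at h
  have h4 := congrArg Polynomial.natDegree h
  rw [← pow_mul, Polynomial.natDegree_X_pow, Polynomial.natDegree_X_pow] at h4
  have h5 : i = k := Nat.eq_of_mul_eq_mul_right (by omega) h4
  rw [hg, h5]

/-- the vectors of the system -/
noncomputable def consW (z : Qbar) (W : Fin r → Fin (n + 1) → Qbar) : Fin (r + 1) → Fin (n + 2) → Qbar :=
  Fin.cons (Fin.cons z (fun _ => 0)) (fun j => Fin.cons 0 (W j))

theorem cur_consW_zero (z : Qbar) (W : Fin r → Fin (n + 1) → Qbar) (l : Fin (r + 1) → ℕ) :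
    cur (consW z W) l 0 = Polynomial.C z * Polynomial.X ^ l 0 := by
  unfold cur consW
  rw [Fin.sum_univ_succ]
  simp

theorem cur_consW_succ (z : Qbar) (W : Fin r → Fin (n + 1) → Qbar) (l : Fin (r + 1) → ℕ)
    (a : Fin (n + 1)) :
    cur (consW z W) l (Fin.succ a) = cur W (fun j => l (Fin.succ j)) a := by
  unfold cur consW
  rw [Fin.sum_univ_succ]
  simp

theorem sum_consW_zero (z : Qbar) (W : Fin r → Fin (n + 1) → Qbar) :
    ∑ j, consW z W j 0 = z := by
  unfold consW
  rw [Fin.sum_univ_succ]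
  simp

theorem sum_consW_succ (z : Qbar) (W : Fin r → Fin (n + 1) → Qbar) (a : Fin (n + 1)) :
    ∑ j, consW z W j (Fin.succ a) = ∑ j, W j a := by
  unfold consW
  rw [Fin.sum_univ_succ]
  simp

theorem gmCurve_of (e : ℕ) (he : 1 ≤ e) (b z : Qbar) (hb : b ≠ 0) (hz : z ≠ 0)
    (F : Fin (q + 1) → MvPolynomial (Fin (n + 1)) Qbar) (hF0 : (F 0).IsHomogeneous e)
    (W : Fin r → Fin (n + 1) → Qbar) (l : Fin (r + 1) → ℕ)
    (h : CurveOn (pairF e b F) (consW z W) l) :
    GmCurve F (cur W (fun j => l (Fin.succ j))) := by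
  obtain ⟨h1, i, i', h2⟩ := h
  obtain ⟨p, hp⟩ : ∃ p : Fin (n + 1) → Polynomial Qbar, p = cur W (fun j => l (Fin.succ j)) :=
    ⟨_, rfl⟩
  have hsucc : (fun a => cur (consW z W) l (Fin.succ a)) = p := by
    rw [hp]
    funext a
    exact cur_consW_succ z W l a
  have hF : ∀ i, i ≠ 0 → aeval p (F i) = 0 := by
    intro i hi
    have h3 := h1 i
    rw [aeval_pairF, if_neg hi, sub_zero, hsucc] at h3
    exact h3
  have hG : aeval p (F 0) = Polynomial.C (b * z ^ e) * Polynomial.X ^ (l 0 * e) := by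
    have h3 := h1 0
    rw [aeval_pairF, if_pos rfl, hsucc, cur_consW_zero, sub_eq_zero] at h3
    rw [h3, mul_pow, ← Polynomial.C_pow, ← pow_mul, Polynomial.C_mul, mul_assoc]
    rfl
  rw [← hp]
  refine ⟨hF, ⟨l 0 * e, b * z ^ e, mul_ne_zero hb (pow_ne_zero _ hz), hG⟩, ?_⟩
  by_contra hno
  push Not at hno
  obtain ⟨x, hx⟩ : ∃ x : Fin (n + 1) → Qbar, x = fun a => (p a).eval 1 := ⟨_, rfl⟩
  have hxW : ∀ a, x a = ∑ j, W j a := by
    intro a
    rw [hx, hp]
    exact cur_eval_one W _ a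
  have hGx : aeval x (F 0) = b * z ^ e := by
    have h3 := congrArg (Polynomial.eval 1) hG
    rw [Pool.Agent.Y215.AF.aeval_eval, Polynomial.eval_mul, Polynomial.eval_C,
      Polynomial.eval_pow, Polynomial.eval_X, one_pow, mul_one] at h3
    rw [hx]
    exact h3
  have hx0 : x ≠ 0 := by
    intro h0
    have h3 : aeval x (F 0) = 0 := by
      have h4 := aeval_hom_smul (F 0) hF0 (0 : Qbar) x
      rw [zero_pow (by omega), zero_mul] at h4
      rw [← h4, h0]
      congr 1
    rw [hGx] at h3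
    exact mul_ne_zero hb (pow_ne_zero _ hz) h3
  obtain ⟨a0, ha0⟩ := Function.ne_iff.1 hx0
  have ha0 : x a0 ≠ 0 := ha0
  obtain ⟨g, hg⟩ : ∃ g : Polynomial Qbar, g = Polynomial.C (x a0)⁻¹ * p a0 := ⟨_, rfl⟩
  have hpg : p = fun a => g * Polynomial.C (x a) := by
    funext a
    refine Polynomial.funext fun s => ?_
    have h3 := congrArg (Polynomial.eval s) (hno a a0)
    rw [Polynomial.eval_mul, Polynomial.eval_mul, Polynomial.eval_C, Polynomial.eval_C] at h3
    rw [hg, Polynomial.eval_mul, Polynomial.eval_mul, Polynomial.eval_C, Polynomial.eval_C]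
    have h4 : (p a0).eval 1 = x a0 := by rw [hx]
    have h5 : (p a).eval 1 = x a := by rw [hx]
    rw [h4, h5] at h3
    field_simp
    exact h3
  have hg1 : g.eval 1 = 1 := by
    rw [hg, Polynomial.eval_mul, Polynomial.eval_C]
    have h4 : (p a0).eval 1 = x a0 := by rw [hx]
    rw [h4, inv_mul_cancel₀ ha0]
  have hgX : g = Polynomial.X ^ (l 0) := by
    refine eq_X_pow g (l 0) e he ?_ hg1
    have h3 : aeval p (F 0) = g ^ e * Polynomial.C (aeval x (F 0)) := by
      rw [hpg]
      have h4 := aeval_hom_smul (F 0) hF0 g (fun a => Polynomial.C (x a))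
      rw [h4]
      congr 1
      have h5 := aeval_algebraMap_apply (Polynomial Qbar) x (F 0)
      exact h5
    rw [hG, hGx, mul_comm (g ^ e)] at h3
    exact (mul_left_cancel₀ (Polynomial.C_ne_zero.2
      (mul_ne_zero hb (pow_ne_zero _ hz))) h3).symm
  have hall : ∀ i, cur (consW z W) l i = Polynomial.X ^ (l 0) *
      Polynomial.C (∑ j, consW z W j i) := by
    intro i
    refine Fin.cases ?_ (fun a => ?_) i
    · rw [cur_consW_zero, sum_consW_zero, mul_comm]
    · rw [sum_consW_succ, ← hxW a, cur_consW_succ, ← hp, hpg, hgX]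
  apply h2
  rw [hall i, hall i']
  ring

/-! ### The theorems for pairs -/

theorem root_hull (Γ : Subgroup Qbarˣ) (w : Qbarˣ) (hw : w ∈ DivHull Γ) (e : ℕ) (he : 1 ≤ e) :
    ∃ z : Qbarˣ, z ∈ DivHull Γ ∧ z ^ e = w := by
  obtain ⟨y, hy⟩ := IsAlgClosed.exists_pow_nat_eq (w : Qbar) (n := e) (by omega)
  have hy0 : y ≠ 0 := by
    rintro rfl
    rw [zero_pow (by omega)] at hy
    exact w.ne_zero hy.symm
  have hz : (Units.mk0 y hy0) ^ e = w := by
    ext
    rw [Units.val_pow_eq_pow_val, Units.val_mk0, hy]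
  obtain ⟨m, hm, hwm⟩ := hw
  refine ⟨Units.mk0 y hy0, ⟨e * m, Nat.mul_pos (by omega) hm, ?_⟩, hz⟩
  rw [pow_mul, hz]
  exact hwm

theorem tw_consW (u : Fin r → Qbarˣ) (z : Qbarˣ) (s : Fin r → Qbar) (s0 : Qbar)
    (V : Fin r → Fin (n + 1) → Qbar) :
    tw (Fin.cons z u : Fin (r + 1) → Qbarˣ) (fun j a => (Fin.cons s0 s : Fin (r + 1) → Qbar) j *
      homV V j a) = consW ((z : Qbar) * s0) (fun j a => (u j : Qbar) * s j * V j a) := by
  funext j a
  unfold tw consW homV
  refine Fin.cases ?_ (fun j => ?_) j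
  · refine Fin.cases ?_ (fun a => ?_) a <;> simp
  · refine Fin.cases ?_ (fun a => ?_) a <;> simp [mul_assoc]

theorem psum_consW (u : Fin r → Qbarˣ) (z : Qbarˣ) (s : Fin r → Qbar) (s0 : Qbar)
    (V : Fin r → Fin (n + 1) → Qbar) :
    psum Finset.univ (Fin.cons z u : Fin (r + 1) → Qbarˣ)
      (fun j a => (Fin.cons s0 s : Fin (r + 1) → Qbar) j * homV V j a) =
      (Fin.cons ((z : Qbar) * s0) (fun a => ∑ j, (u j : Qbar) * s j * V j a) :
        Fin (n + 2) → Qbar) := by
  have h : psum Finset.univ (Fin.cons z u : Fin (r + 1) → Qbarˣ)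
      (fun j a => (Fin.cons s0 s : Fin (r + 1) → Qbar) j * homV V j a) =
      fun a => ∑ j, tw (Fin.cons z u : Fin (r + 1) → Qbarˣ)
        (fun j a => (Fin.cons s0 s : Fin (r + 1) → Qbar) j * homV V j a) j a := by
    funext a
    unfold Pool.Agent.Y215.SK.psum tw
    rfl
  rw [h, tw_consW]
  funext a
  refine Fin.cases ?_ (fun a => ?_) a
  · rw [sum_consW_zero, Fin.cons_zero]
  · rw [sum_consW_succ, Fin.cons_succ]

theorem height_le_cons (z : Qbar) (x : Fin (n + 1) → Qbar) :
    absLogHeight x ≤ absLogHeight (Fin.cons z x : Fin (n + 2) → Qbar) := by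
  have h := absLogHeight_comp_le (fun a : Fin (n + 1) => (Fin.succ a : Fin (n + 2)))
    (Fin.cons z x : Fin (n + 2) → Qbar)
  have e : (Fin.cons z x : Fin (n + 2) → Qbar) ∘ (fun a : Fin (n + 1) => (Fin.succ a : Fin (n + 2)))
      = x := by
    funext a
    simp
  rwa [e] at h

/-- **The height inequality for all pairs.** -/
theorem pair_heights (d : Fin (q + 1) → ℕ) (D : ℕ) (hD : 1 ≤ D) (hd0 : 1 ≤ d 0)
    (hdD : ∀ i, d i ≤ D) (Γ : Subgroup Qbarˣ) (hΓ : Γ.FG) :
    ∃ C : ℝ, 0 ≤ C ∧ ∀ (F : Fin (q + 1) → MvPolynomial (Fin (n + 1)) Qbar)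
      (u : Fin r → Qbarˣ) (w : Qbarˣ) (b : Qbar) (V : Fin r → Fin (n + 1) → Qbar),
      (∀ i, (F i).IsHomogeneous (d i)) → (∀ j, u j ∈ DivHull Γ) → w ∈ DivHull Γ → b ≠ 0 →
      (∀ i, i ≠ 0 → aeval (fun a => ∑ j, (u j : Qbar) * V j a) (F i) = 0) →
      aeval (fun a => ∑ j, (u j : Qbar) * V j a) (F 0) = w * b →
      (∀ l : Fin r → ℕ, (∀ j, l j ≤ expB D (r + 1)) →
        ¬ GmCurve F (cur (fun j a => (u j : Qbar) * V j a) l)) →
      absLogHeight (fun a => ∑ j, (u j : Qbar) * V j a) ≤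
        C * (1 + hA (cof d F) + hA ![b] + hAV V) := by
  classical
  obtain ⟨C, hC0, hC⟩ := gen_heights (n := n + 1) (r := r + 1) d D hD hdD Γ hΓ
  refine ⟨C, hC0, fun F u w b V hF hu hw hb hx hG hno => ?_⟩
  obtain ⟨z, hz, hze⟩ := root_hull Γ w hw (d 0) hd0
  obtain ⟨x, hxd⟩ : ∃ x : Fin (n + 1) → Qbar, x = fun a => ∑ j, (u j : Qbar) * V j a := ⟨_, rfl⟩
  have hV1 : (fun (j : Fin (r + 1)) (a : Fin (n + 2)) =>
      (Fin.cons 1 (fun _ => 1) : Fin (r + 1) → Qbar) j * homV V j a) = homV V := by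
    funext j a
    refine Fin.cases ?_ (fun j => ?_) j <;> simp
  have hps := psum_consW u z (fun _ => 1) 1 V
  have htw := tw_consW u z (fun _ => 1) 1 V
  rw [hV1] at hps htw
  simp only [mul_one] at hps htw
  rw [← hxd] at hps
  have hGx : aeval x (F 0) = b * (z : Qbar) ^ d 0 := by
    rw [hxd, hG, ← hze, Units.val_pow_eq_pow_val, mul_comm]
  have hze0 : (z : Qbar) ≠ 0 := z.ne_zero
  have h1 := hC (pairF (d 0) b F) (Fin.cons z u) (homV V) (pairF_hom d b F hF)
    (fun j => by
      refine Fin.cases ?_ (fun j => ?_) j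
      · rw [Fin.cons_zero]
        exact hz
      · rw [Fin.cons_succ]
        exact hu j)
    (by
      rw [hps]
      intro h0
      have h2 := congrFun h0 0
      rw [Fin.cons_zero] at h2
      exact hze0 h2)
    (fun i => by
      rw [hps, aeval_pairF]
      simp only [Fin.cons_succ, Fin.cons_zero]
      by_cases hi : i = 0
      · rw [hi, if_pos rfl]
        change aeval x (F 0) - _ = 0
        rw [hGx, sub_eq_zero]
        rfl
      · rw [if_neg hi, sub_zero]
        change aeval x (F i) = 0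
        rw [hxd]
        exact hx i hi)
    (fun l hl hcur => by
      rw [htw] at hcur
      exact hno (fun j => l (Fin.succ j)) (fun j => hl _)
        (gmCurve_of (d 0) hd0 b z hb hze0 F (hF 0) _ l hcur))
  rw [hps] at h1
  have h2 := cof_pairF_le d hd0 b F hF
  have h3 := hV_homV V
  rw [← hxd]
  refine (height_le_cons _ _).trans (h1.trans (mul_le_mul_of_nonneg_left ?_ hC0))
  linarith

/-- the points `∑ u_j s_j V_j` off the divisor which are not on a curve of `GmCurve` of degree at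
most `E` -/
def nearPair (E e : ℕ) (b : Qbar) (F : Fin (q + 1) → MvPolynomial (Fin (n + 1)) Qbar)
    (Γ : Subgroup Qbarˣ) (ε : ℝ) (V : Fin r → Fin (n + 1) → Qbar) :
    Set (Projectivization Qbar (Fin (n + 1) → Qbar)) :=
  {P | ∃ (u : Fin r → Qbarˣ) (w : Qbarˣ) (s : Fin r → Qbar) (s0 : Qbar),
    (∀ j, u j ∈ DivHull Γ) ∧ w ∈ DivHull Γ ∧
    absLogHeight (Fin.cons s0 s : Fin (r + 1) → Qbar) < ε ∧
    (∀ i, i ≠ 0 → aeval (fun a => ∑ j, (u j : Qbar) * s j * V j a) (F i) = 0) ∧
    aeval (fun a => ∑ j, (u j : Qbar) * s j * V j a) (F 0) = b * (w * s0) ^ e ∧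
    aeval (fun a => ∑ j, (u j : Qbar) * s j * V j a) (F 0) ≠ 0 ∧
    (¬ ∃ p : Fin (n + 1) → Polynomial Qbar, (∀ a, (p a).natDegree ≤ E) ∧ GmCurve F p ∧
      ∀ a, (p a).eval 1 = ∑ j, (u j : Qbar) * s j * V j a) ∧
    ∃ h : (fun a => ∑ j, (u j : Qbar) * s j * V j a) ≠ 0, P = Projectivization.mk Qbar _ h}

open Classical in
/-- the projection -/
noncomputable def dropZ (p : Projectivization Qbar (Fin (n + 2) → Qbar)) :
    Projectivization Qbar (Fin (n + 1) → Qbar) :=
  if h : (fun a => p.rep (Fin.succ a)) ≠ 0 then Projectivization.mk Qbar _ h else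
    Projectivization.mk Qbar (fun _ => 1) (fun h0 => one_ne_zero (congrFun h0 0))

theorem dropZ_mk (z : Qbar) (x : Fin (n + 1) → Qbar) (hx : x ≠ 0)
    (h : (Fin.cons z x : Fin (n + 2) → Qbar) ≠ 0) :
    dropZ (Projectivization.mk Qbar _ h) = Projectivization.mk Qbar x hx := by
  obtain ⟨c, hc⟩ := Projectivization.exists_smul_eq_mk_rep Qbar _ h
  have h1 : (fun a => (Projectivization.mk Qbar _ h).rep (Fin.succ a)) = (c : Qbar) • x := by
    rw [← hc]
    funext a
    rfl
  have h2 : (fun a => (Projectivization.mk Qbar _ h).rep (Fin.succ a)) ≠ 0 := by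
    rw [h1]
    exact smul_ne_zero c.ne_zero hx
  unfold dropZ
  rw [dif_pos h2, Projectivization.mk_eq_mk_iff']
  exact ⟨c, h1.symm⟩

theorem nearPair_sub (D : ℕ) (hD : 1 ≤ D) (e : ℕ) (he : 1 ≤ e) (b : Qbar) (hb : b ≠ 0)
    (F : Fin (q + 1) → MvPolynomial (Fin (n + 1)) Qbar) (hF0 : (F 0).IsHomogeneous e)
    (hFp : ∀ i, ∃ e', e' ≤ D ∧ (pairF e b F i).IsHomogeneous e')
    (Γ : Subgroup Qbarˣ) (ε : ℝ) (V : Fin r → Fin (n + 1) → Qbar) :
    nearPair (expB D (r + 1)) e b F Γ ε V ⊆ dropZ '' (nearP (pairF e b F) Γ ε (homV V)) := by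
  classical
  rintro P ⟨u, w, s, s0, hu, hw, hs, h1, h2, h3, h4, h5, rfl⟩
  obtain ⟨x, hxd⟩ : ∃ x : Fin (n + 1) → Qbar, x = fun a => ∑ j, (u j : Qbar) * s j * V j a :=
    ⟨_, rfl⟩
  have hz : (w : Qbar) * s0 ≠ 0 := by
    intro h0
    rw [h2, h0, zero_pow (by omega), mul_zero] at h3
    exact h3 rfl
  have hps := psum_consW u w s s0 V
  have htw := tw_consW u w s s0 V
  rw [← hxd] at hps
  have hne : (Fin.cons ((w : Qbar) * s0) x : Fin (n + 2) → Qbar) ≠ 0 := by
    intro h0
    have h2 := congrFun h0 0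
    rw [Fin.cons_zero] at h2
    exact hz h2
  refine ⟨Projectivization.mk Qbar _ hne, ⟨Fin.cons w u, Fin.cons s0 s, fun j => ?_, hs,
    fun i => ?_, ?_, ?_, ?_⟩, ?_⟩
  · refine Fin.cases ?_ (fun j => ?_) j
    · rw [Fin.cons_zero]
      exact hw
    · rw [Fin.cons_succ]
      exact hu j
  · rw [hps, aeval_pairF]
    simp only [Fin.cons_succ, Fin.cons_zero]
    by_cases hi : i = 0
    · rw [hi, if_pos rfl]
      change aeval x (F 0) - _ = 0
      rw [hxd, h2, sub_eq_zero]
      rfl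
    · rw [if_neg hi, sub_zero]
      change aeval x (F i) = 0
      rw [hxd]
      exact h1 i hi
  · rw [htw]
    intro J l hc hl
    obtain ⟨l', hl', hc'⟩ := hl.bounded D hD hFp
    obtain ⟨c, hc0, hc⟩ := hc
    have h0 := hc 0
    rw [sum_consW_zero] at h0
    have h6 : ∑ j ∈ J, consW ((w : Qbar) * s0) (fun j a => (u j : Qbar) * s j * V j a) j 0 =
        if (0 : Fin (r + 1)) ∈ J then (w : Qbar) * s0 else 0 := by
      have h7 : ∀ j ∈ J, consW ((w : Qbar) * s0) (fun j a => (u j : Qbar) * s j * V j a) j 0 =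
          if (0 : Fin (r + 1)) = j then (w : Qbar) * s0 else 0 := by
        intro j _
        refine Fin.cases ?_ (fun j => ?_) j
        · simp [consW]
        · rw [if_neg (Fin.succ_ne_zero j).symm]
          simp [consW]
      rw [Finset.sum_congr rfl h7, Finset.sum_ite_eq]
    rw [h6] at h0
    have h0J : (0 : Fin (r + 1)) ∈ J := by
      by_contra h8
      rw [if_neg h8] at h0
      exact mul_ne_zero hc0 hz h0.symm
    rw [if_pos h0J] at h0
    have hc1 : c = 1 := by
      have h8 : c * ((w : Qbar) * s0) = 1 * ((w : Qbar) * s0) := by rw [one_mul]; exact h0.symm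
      exact mul_right_cancel₀ hz h8
    have hres : (fun (j : Fin (r + 1)) (a : Fin (n + 2)) => if j ∈ J then
        consW ((w : Qbar) * s0) (fun j a => (u j : Qbar) * s j * V j a) j a else 0) =
        consW ((w : Qbar) * s0) (fun j a => if Fin.succ j ∈ J then (u j : Qbar) * s j * V j a
          else 0) := by
      funext j a
      refine Fin.cases ?_ (fun j => ?_) j
      · rw [if_pos h0J]
        rfl
      · by_cases hj : Fin.succ j ∈ J
        · rw [if_pos hj]
          refine Fin.cases ?_ (fun a => ?_) a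
          · simp [consW]
          · simp [consW, hj]
        · rw [if_neg hj]
          refine Fin.cases ?_ (fun a => ?_) a
          · simp [consW]
          · simp [consW, hj]
    rw [hres] at hc'
    have hgm := gmCurve_of e he b _ hb hz F hF0 _ l' hc'
    refine h4 ⟨_, fun a => ?_, hgm, fun a => ?_⟩
    · unfold cur
      refine Polynomial.natDegree_sum_le_of_forall_le _ _ fun j _ => ?_
      refine (Polynomial.natDegree_C_mul_X_pow_le _ _).trans (hl' _)
    · rw [cur_eval_one]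
      have h8 := hc (Fin.succ a)
      rw [hc1, one_mul, sum_consW_succ] at h8
      rw [← h8, ← sum_consW_succ ((w : Qbar) * s0)
        (fun j a => if Fin.succ j ∈ J then (u j : Qbar) * s j * V j a else 0), ← hres]
      rw [Finset.sum_ite_mem, Finset.univ_inter]
  · rw [hps]
    exact hne
  · congr 1
    exact hps.symm
  · subst hxd
    exact dropZ_mk _ _ h5 _

/-- **The number of points near a group for all pairs.** -/
theorem pair_near (d : Fin (q + 1) → ℕ) (D : ℕ) (hD : 1 ≤ D) (hd0 : 1 ≤ d 0)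
    (hdD : ∀ i, d i ≤ D) (Γ : Subgroup Qbarˣ) (hΓ : Γ.FG) :
    ∃ (B : ℝ) (e : ℕ), 0 ≤ B ∧ ∀ (F : Fin (q + 1) → MvPolynomial (Fin (n + 1)) Qbar) (b : Qbar)
      (V : Fin r → Fin (n + 1) → Qbar), (∀ i, (F i).IsHomogeneous (d i)) → b ≠ 0 →
      (nearPair (expB D (r + 1)) (d 0) b F Γ (epsn ((D + 1) ^ (r + 1)) / D / 2) V).Finite ∧
      ((nearPair (expB D (r + 1)) (d 0) b F Γ (epsn ((D + 1) ^ (r + 1)) / D / 2) V).ncard : ℝ) ≤
        B * (1 + hA (cof d F) + hA ![b] + hAV V) ^ e := by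
  classical
  obtain ⟨B, e, hB0, hB⟩ := gen_near (n := n + 1) (r := r + 1) d D hD hdD Γ hΓ
  refine ⟨B, e, hB0, fun F b V hF hb => ?_⟩
  obtain ⟨hfin, hcard⟩ := hB (pairF (d 0) b F) (homV V) (pairF_hom d b F hF)
  have hsub := nearPair_sub D hD (d 0) hd0 b hb F (hF 0)
    (fun i => ⟨d i, hdD i, pairF_hom d b F hF i⟩) Γ (epsn ((D + 1) ^ (r + 1)) / D / 2) V
  have hfin' := hfin.image dropZ
  refine ⟨hfin'.subset hsub, ?_⟩
  have h1 := Set.ncard_le_ncard hsub hfin'
  have h2 := Set.ncard_image_le (f := dropZ) hfin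
  refine le_trans (by exact_mod_cast h1.trans h2) (hcard.trans ?_)
  have h3 := cof_pairF_le d hd0 b F hF
  have h4 := hV_homV V
  have h5 : 0 ≤ hA (cof d (pairF (d 0) b F)) := hA_nonneg _
  have h6 : 0 ≤ hV (homV V) := absLogHeight_nonneg _
  exact mul_le_mul_of_nonneg_left (pow_le_pow_left₀ (by linarith) (by linarith) _) hB0

/-- descent of the field of definition of a curve -/
theorem gmCurve_descend {K L : Type} [Field K] [Field L] (φ : K →+* L)
    (F : Fin (q + 1) → MvPolynomial (Fin (n + 1)) K) (p : Fin (n + 1) → Polynomial K)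
    (h : GmCurve (fun i => map φ (F i)) (fun a => (p a).map φ)) : GmCurve F p := by
  have hinj : Function.Injective (Polynomial.map φ) := Polynomial.map_injective φ φ.injective
  obtain ⟨h1, ⟨k, c, hc, h2⟩, a, a', h3⟩ := h
  refine ⟨fun i hi => ?_, ?_, a, a', fun h4 => h3 ?_⟩
  · apply hinj
    rw [map_aeval_poly, h1 i hi, Polynomial.map_zero]
  · have h4 : Polynomial.map φ (aeval p (F 0)) = Polynomial.C c * Polynomial.X ^ k := by
      rw [map_aeval_poly]
      exact h2
    have h5 : ∀ m, φ ((aeval p (F 0)).coeff m) = if m = k then c else 0 := by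
      intro m
      have h6 := congrArg (fun g => Polynomial.coeff g m) h4
      simp only [Polynomial.coeff_map, Polynomial.coeff_C_mul_X_pow] at h6
      exact h6
    refine ⟨k, (aeval p (F 0)).coeff k, ?_, ?_⟩
    · intro h6
      have h7 := h5 k
      rw [h6, map_zero, if_pos rfl] at h7
      exact hc h7.symm
    · ext m
      rw [Polynomial.coeff_C_mul_X_pow]
      split_ifs with hm
      · rw [hm]
      · apply φ.injective
        rw [h5 m, if_neg hm, map_zero]
  · have h5 := congrArg (Polynomial.map φ) h4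
    rw [Polynomial.map_mul, Polynomial.map_mul, Polynomial.map_C, Polynomial.map_C] at h5
    have h6 : ∀ a, ((p a).map φ).eval 1 = φ ((p a).eval 1) := by
      intro a
      rw [Polynomial.eval_one_map]
    rw [h6, h6]
    exact h5

end Pool.Agent.Q204.UF
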