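import Mathlib
import Pool.Agent.Y215.AF.Hts

set_option autoImplicit false
set_option linter.unusedSectionVars false

/-! # Heights of integral vectors, the group generated by finitely many integers -/

namespace Pool.Agent.Q204.UF

open Pool.Agent.Helper259.AbsHt Pool.Agent.Y215.SK Pool.Agent.Y215.AF

/-- the affine height of an integral vector -/
theorem hA_int {τ : Type} [Finite τ] (x : τ → ℤ) :
    hA (fun i => (x i : Qbar)) =
      Real.log ((⨆ o : Option τ, |o.elim 1 x| : ℤ) : ℝ) := by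
  classical
  have := Fintype.ofFinite τ
  have h1 := absLogHeight_int (ι := Option τ) (fun o => o.elim 1 x) (by
    have h2 : Finset.univ.gcd (fun o : Option τ => o.elim (1 : ℤ) x) ∣ 1 :=
      Finset.gcd_dvd (f := fun o : Option τ => o.elim (1 : ℤ) x) (Finset.mem_univ none)
    have h3 : normalize (Finset.univ.gcd (fun o : Option τ => o.elim (1 : ℤ) x)) =
        Finset.univ.gcd (fun o : Option τ => o.elim (1 : ℤ) x) := Finset.normalize_gcd
    rw [← h3]
    exact normalize_eq_one.2 (isUnit_of_dvd_one h2))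
  unfold hA
  rw [← h1]
  congr 1
  funext o
  cases o with
  | none => simp
  | some i => simp

theorem hA_int_le {τ : Type} [Finite τ] (x : τ → ℤ) (M : ℕ) (hM : 1 ≤ M)
    (h : ∀ i, |x i| ≤ M) : hA (fun i => (x i : Qbar)) ≤ Real.log M := by
  rw [hA_int]
  have h1 : (⨆ o : Option τ, |o.elim 1 x| : ℤ) ≤ M := by
    refine ciSup_le fun o => ?_
    cases o with
    | none => simpa using hM
    | some i => exact h i
  have h2 : (1 : ℤ) ≤ ⨆ o : Option τ, |o.elim 1 x| := by
    have := le_ciSup (f := fun o : Option τ => |o.elim 1 x|) (Set.finite_range _).bddAbove none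
    simpa using this
  refine Real.log_le_log ?_ ?_
  · exact_mod_cast (by omega : (0 : ℤ) < ⨆ o : Option τ, |o.elim 1 x|)
  · exact_mod_cast h1

theorem le_hA_int {τ : Type} [Finite τ] (x : τ → ℤ) (i : τ) :
    (|x i| : ℝ) ≤ Real.exp (hA (fun i => (x i : Qbar))) := by
  rw [hA_int]
  have h2 : (1 : ℤ) ≤ ⨆ o : Option τ, |o.elim 1 x| := by
    have := le_ciSup (f := fun o : Option τ => |o.elim 1 x|) (Set.finite_range _).bddAbove none
    simpa using this
  have h3 : |x i| ≤ ⨆ o : Option τ, |o.elim 1 x| :=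
    le_ciSup (f := fun o : Option τ => |o.elim 1 x|) (Set.finite_range _).bddAbove (some i)
  rw [Real.exp_log (by exact_mod_cast (by omega : (0 : ℤ) < ⨆ o : Option τ, |o.elim 1 x|))]
  exact_mod_cast h3

/-- the group generated by `-1` and the elements of `S` -/
noncomputable def grpS (S : Finset ℕ) : Subgroup Qbarˣ :=
  Subgroup.closure ({-1} ∪ {v | ∃ p ∈ S, (v : Qbar) = (p : Qbar)})

theorem grpS_fg (S : Finset ℕ) : (grpS S).FG := by
  rw [Subgroup.fg_iff]
  refine ⟨_, rfl, (Set.finite_singleton _).union ?_⟩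
  refine Set.Finite.subset ((S : Set ℕ).toFinite.biUnion (t := fun p => {v : Qbarˣ | (v : Qbar) = p})
    fun p _ => Set.Subsingleton.finite fun v hv w hw => Units.ext (hv.trans hw.symm)) ?_
  rintro v ⟨p, hp, hv⟩
  exact Set.mem_biUnion (Finset.mem_coe.2 hp) hv

theorem mem_grpS (S : Finset ℕ) (hS : ∀ p ∈ S, p ≠ 0) (v : Qbarˣ) (u : ℚ)
    (hv : (v : Qbar) = algebraMap ℚ Qbar u) (e : ℕ → ℤ) (hu : |u| = ∏ p ∈ S, (p : ℚ) ^ e p) :
    v ∈ grpS S := by
  classical
  have hgen : ∀ p ∈ S, ∃ g : Qbarˣ, (g : Qbar) = p ∧ g ∈ grpS S := by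
    intro p hp
    have h0 : (p : Qbar) ≠ 0 := Nat.cast_ne_zero.2 (hS p hp)
    exact ⟨Units.mk0 _ h0, rfl, Subgroup.subset_closure (Or.inr ⟨p, hp, rfl⟩)⟩
  choose! g hg hgm using hgen
  have hm1 : (-1 : Qbarˣ) ∈ grpS S := Subgroup.subset_closure (Or.inl rfl)
  have hprod : ∏ p ∈ S, g p ^ e p ∈ grpS S := prod_mem fun p hp => zpow_mem (hgm p hp) _
  have hval : ((∏ p ∈ S, g p ^ e p : Qbarˣ) : Qbar) = algebraMap ℚ Qbar |u| := by
    rw [hu, map_prod, Units.coe_prod]
    refine Finset.prod_congr rfl fun p hp => ?_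
    rw [Units.val_zpow_eq_zpow_val, hg p hp, map_zpow₀, map_natCast]
  rcases abs_choice u with h | h
  · have : v = ∏ p ∈ S, g p ^ e p := by
      ext
      rw [hval, hv, h]
    rw [this]
    exact hprod
  · have : v = -1 * ∏ p ∈ S, g p ^ e p := by
      ext
      rw [Units.val_mul, hval, hv, h]
      simp
    rw [this]
    exact mul_mem hm1 hprod

end Pool.Agent.Q204.UF
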