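import Mathlib
import Pool.Agent.Q204.UF.Aff
import Pool.Agent.TH551.HE.Rat

set_option autoImplicit false
set_option linter.unusedSectionVars false

/-! # Hyperelliptic curves contain no curves with Laurent coordinates -/

namespace Pool.Agent.Q204.UF

open Pool.Agent.Helper259.AbsHt Pool.Agent.Y215.SK

/-- the Laurent polynomials with values on `y ^ 2 = f x` are constant -/
theorem hyp_const {κ : Type} (s : Finset κ) (m : κ → ℤ) (W : κ → Fin 2 → Qbar)
    (f : Polynomial Qbar) (hf : f.Separable) (hd : 3 ≤ f.natDegree)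
    (h : ∀ t : Qbar, t ≠ 0 →
      (∑ j ∈ s, t ^ m j * W j 1) ^ 2 = f.eval (∑ j ∈ s, t ^ m j * W j 0)) :
    ∃ c : Fin 2 → Qbar, ∀ t : Qbar, t ≠ 0 → ∀ a, ∑ j ∈ s, t ^ m j * W j a = c a := by
  classical
  obtain ⟨N, hN⟩ : ∃ N : ℕ, ∀ j ∈ s, 0 ≤ m j + N := by
    refine ⟨∑ j ∈ s, (m j).natAbs, fun j hj => ?_⟩
    have h3 : (m j).natAbs ≤ ∑ j ∈ s, (m j).natAbs :=
      Finset.single_le_sum (f := fun j => (m j).natAbs) (fun _ _ => Nat.zero_le _) hj
    omega
  obtain ⟨p, hp⟩ : ∃ p : Fin 2 → Polynomial Qbar, p = fun a =>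
      ∑ j ∈ s, Polynomial.C (W j a) * Polynomial.X ^ (m j + N).toNat := ⟨_, rfl⟩
  have hev : ∀ (t : Qbar), t ≠ 0 → ∀ a, (p a).eval t = t ^ N * ∑ j ∈ s, t ^ m j * W j a := by
    intro t ht a
    rw [hp]
    simp only
    rw [Polynomial.eval_finsetSum, Finset.mul_sum]
    refine Finset.sum_congr rfl fun j hj => ?_
    rw [Polynomial.eval_mul, Polynomial.eval_C, Polynomial.eval_pow, Polynomial.eval_X]
    have h1 : t ^ (m j + N).toNat = t ^ (m j) * t ^ N := by
      rw [← zpow_natCast, Int.toNat_of_nonneg (hN j hj), zpow_add₀ ht, zpow_natCast]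
    rw [h1]
    ring
  obtain ⟨c, c', h1, h2⟩ := Pool.Agent.TH551.HE.no_param Qbar f hf hd (p 0) (Polynomial.X ^ N)
    (p 1) (pow_ne_zero _ Polynomial.X_ne_zero) (by
      refine Polynomial.eq_of_infinite_eval_eq _ _ (Set.Infinite.mono
        (s := {t : Qbar | t ≠ 0}) ?_ ?_)
      · intro t ht
        have ht : t ≠ 0 := ht
        show Polynomial.eval t _ = Polynomial.eval t _
        rw [Polynomial.eval_mul, Polynomial.eval_pow, Polynomial.eval_pow, Polynomial.eval_pow,
          Polynomial.eval_X, hev t ht 1, Polynomial.eval_finsetSum]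
        have h3 : ∀ i ∈ Finset.range (f.natDegree + 1), Polynomial.eval t
            (Polynomial.C (f.coeff i) * p 0 ^ i * (Polynomial.X ^ N) ^ (f.natDegree - i)) =
            (t ^ N) ^ f.natDegree * (f.coeff i * (∑ j ∈ s, t ^ m j * W j 0) ^ i) := by
          intro i hi
          have h4 : i ≤ f.natDegree := Nat.lt_succ_iff.1 (Finset.mem_range.1 hi)
          rw [Polynomial.eval_mul, Polynomial.eval_mul, Polynomial.eval_C, Polynomial.eval_pow,
            Polynomial.eval_pow, Polynomial.eval_pow, Polynomial.eval_X, hev t ht 0, mul_pow]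
          have h5 : (t ^ N) ^ f.natDegree = (t ^ N) ^ i * (t ^ N) ^ (f.natDegree - i) := by
            rw [← pow_add, Nat.add_sub_cancel' h4]
          rw [h5]
          ring
        rw [Finset.sum_congr rfl h3, ← Finset.mul_sum, ← Polynomial.eval_eq_sum_range, ← h t ht]
        have h6 : (t ^ N) ^ f.natDegree = (t ^ N) ^ 2 * (t ^ N) ^ (f.natDegree - 2) := by
          rw [← pow_add, Nat.add_sub_cancel' (by omega)]
        rw [h6]
        ring
      · exact Set.infinite_of_finite_compl (by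
          have : {t : Qbar | t ≠ 0}ᶜ = {0} := by
            ext t
            simp
          rw [this]
          exact Set.finite_singleton _))
  refine ⟨![c, c'], fun t ht a => ?_⟩
  have htN : t ^ N ≠ 0 := pow_ne_zero _ ht
  refine mul_left_cancel₀ htN ?_
  rw [← hev t ht a]
  fin_cases a
  · show (p 0).eval t = t ^ N * c
    rw [h1, Polynomial.eval_mul, Polynomial.eval_C, Polynomial.eval_pow, Polynomial.eval_X,
      mul_comm]
  · show (p 1).eval t = t ^ N * c'
    rw [h2, Polynomial.eval_mul, Polynomial.eval_C, Polynomial.eval_pow, Polynomial.eval_X,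
      mul_comm]

/-- the cubic polynomial of a nonsingular Weierstrass equation -/
theorem cubic_sep (a b : Qbar) (h : 4 * a ^ 3 + 27 * b ^ 2 ≠ 0) :
    (Polynomial.X ^ 3 + Polynomial.C a * Polynomial.X + Polynomial.C b :
      Polynomial Qbar).Separable := by
  have hder : Polynomial.derivative (Polynomial.X ^ 3 + Polynomial.C a * Polynomial.X +
      Polynomial.C b : Polynomial Qbar) = 3 * Polynomial.X ^ 2 + Polynomial.C a := by
    simp [Polynomial.derivative_pow]
    exact map_ofNat Polynomial.C 3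
  rw [Polynomial.separable_def, hder]
  refine ⟨Polynomial.C (4 * a ^ 3 + 27 * b ^ 2)⁻¹ * (Polynomial.C (27 * b) -
    Polynomial.C (18 * a) * Polynomial.X), Polynomial.C (4 * a ^ 3 + 27 * b ^ 2)⁻¹ *
    (Polynomial.C (4 * a ^ 2) + Polynomial.C (6 * a) * Polynomial.X ^ 2 -
      Polynomial.C (9 * b) * Polynomial.X), ?_⟩
  have h1 : (Polynomial.C (4 * a ^ 3 + 27 * b ^ 2)⁻¹ : Polynomial Qbar) *
      Polynomial.C (4 * a ^ 3 + 27 * b ^ 2) = 1 := by
    rw [← Polynomial.C_mul, inv_mul_cancel₀ h, Polynomial.C_1]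
  rw [← h1]
  simp only [map_add, map_mul, map_pow, map_ofNat]
  ring

theorem cubic_deg (a b : Qbar) : (Polynomial.X ^ 3 + Polynomial.C a * Polynomial.X +
    Polynomial.C b : Polynomial Qbar).natDegree = 3 := by
  compute_degree!

/-! ### The equation -/

open MvPolynomial

/-- the polynomial `y ^ 2 - f (x)` -/
noncomputable def hypPoly (f : Polynomial Qbar) : MvPolynomial (Fin 2) Qbar :=
  X 1 ^ 2 - Polynomial.aeval (X 0) f

theorem aeval_hypPoly (f : Polynomial Qbar) (v : Fin 2 → Qbar) :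
    aeval v (hypPoly f) = v 1 ^ 2 - f.eval (v 0) := by
  unfold hypPoly
  rw [map_sub, map_pow, aeval_X, ← Polynomial.aeval_algHom_apply, aeval_X]
  rfl

theorem hypPoly_deg (f : Polynomial Qbar) (D : ℕ) (h2 : 2 ≤ D) (hf : f.natDegree ≤ D) :
    (hypPoly f).totalDegree ≤ D := by
  unfold hypPoly
  refine (totalDegree_sub _ _).trans (max_le ?_ ?_)
  · refine (totalDegree_pow _ _).trans ?_
    rw [totalDegree_X]
    omega
  · rw [Polynomial.aeval_eq_sum_range]
    refine totalDegree_finsetSum_le fun i hi => ?_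
    refine (totalDegree_smul_le _ _).trans ((totalDegree_pow _ _).trans ?_)
    rw [totalDegree_X, mul_one]
    exact (Nat.lt_succ_iff.1 (Finset.mem_range.1 hi)).trans hf

theorem coeff_hypPoly (f : Polynomial Qbar) (α : Fin 2 →₀ ℕ) :
    coeff α (hypPoly f) = 0 ∨ coeff α (hypPoly f) = 1 ∨
      ∃ i, i ≤ f.natDegree ∧ coeff α (hypPoly f) = - f.coeff i := by
  classical
  have h1 : coeff α (Polynomial.aeval (X 0) f : MvPolynomial (Fin 2) Qbar) =
      ∑ i ∈ Finset.range (f.natDegree + 1), f.coeff i *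
        (if Finsupp.single 0 i = α then 1 else 0) := by
    rw [Polynomial.aeval_eq_sum_range, coeff_sum]
    refine Finset.sum_congr rfl fun i _ => ?_
    rw [coeff_smul, coeff_X_pow, smul_eq_mul]
  unfold hypPoly
  rw [coeff_sub, coeff_X_pow, h1]
  by_cases h2 : Finsupp.single (1 : Fin 2) 2 = α
  · right; left
    rw [if_pos h2, Finset.sum_eq_zero, sub_zero]
    intro i _
    rw [if_neg, mul_zero]
    intro h3
    have h4 : (Finsupp.single (0 : Fin 2) i : Fin 2 →₀ ℕ) 1 = Finsupp.single (1 : Fin 2) 2 1 := by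
      rw [h3, h2]
    simp at h4
  · rw [if_neg h2]
    by_cases h3 : ∃ i ∈ Finset.range (f.natDegree + 1), Finsupp.single (0 : Fin 2) i = α
    · right; right
      obtain ⟨i, hi, h4⟩ := h3
      refine ⟨i, Nat.lt_succ_iff.1 (Finset.mem_range.1 hi), ?_⟩
      rw [Finset.sum_eq_single i, if_pos h4, mul_one, zero_sub]
      · intro i' _ hne
        rw [if_neg, mul_zero]
        intro h5
        apply hne
        have h6 := congrArg (fun g : Fin 2 →₀ ℕ => g 0) (h5.trans h4.symm)
        simpa using h6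
      · intro h5
        exact absurd hi h5
    · left
      rw [Finset.sum_eq_zero, sub_zero]
      intro i hi
      rw [if_neg, mul_zero]
      intro h4
      exact h3 ⟨i, hi, h4⟩

/-- signs and zeros do not change the height -/
theorem hFc_le {q n : ℕ} (D : ℕ) (F : Fin q → MvPolynomial (Fin n) Qbar) {τ : Type} [Fintype τ]
    (x : τ → Qbar)
    (h : ∀ i α, coeff α (F i) = 0 ∨ coeff α (F i) = 1 ∨ coeff α (F i) = -1 ∨
      ∃ t, coeff α (F i) = x t ∨ coeff α (F i) = - x t) :
    hFc D F ≤ Pool.Agent.Y215.AF.hA x := by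
  classical
  have hx0 : (fun o : Option τ => o.elim (1 : Qbar) x) ≠ 0 := by
    intro h0
    have := congrFun h0 none
    simp at this
  have hs0 : ![(0 : Qbar), 1, -1] ≠ 0 := by
    intro h0
    have := congrFun h0 1
    simp at this
  have hs : absLogHeight ![(0 : Qbar), 1, -1] ≤ 0 := by
    refine (height_le_sum _).trans ?_
    rw [Fin.sum_univ_three]
    simp [h1_zero, h1_one, h1_neg]
  have hch : ∀ y : Fin q × AI n D, ∃ (o : Option τ) (k : Fin 3),
      coeff y.2.1 (F y.1) = (o.elim (1 : Qbar) x) * ![(0 : Qbar), 1, -1] k := by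
    intro y
    rcases h y.1 y.2.1 with h1 | h1 | h1 | ⟨t, h1 | h1⟩
    · exact ⟨none, 0, by rw [h1]; simp⟩
    · exact ⟨none, 1, by rw [h1]; simp⟩
    · exact ⟨none, 2, by rw [h1]; simp⟩
    · exact ⟨some t, 1, by rw [h1]; simp⟩
    · exact ⟨some t, 2, by rw [h1]; simp⟩
  choose o k hok using hch
  have h2 := height_mul_le (fun o : Option τ => o.elim (1 : Qbar) x) ![(0 : Qbar), 1, -1] hx0 hs0
    (τ := Option (Fin q × AI n D)) (fun z => z.elim none o) (fun z => z.elim 1 k)
  unfold hFc
  unfold Pool.Agent.Y215.AF.hA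
  refine le_trans (le_of_eq ?_) (h2.trans (by linarith))
  refine congrArg absLogHeight (funext fun z => ?_)
  cases z with
  | none => simp
  | some y => exact hok y

end Pool.Agent.Q204.UF
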